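import Mathlib

/-! Sub-Riemannian structures on `ℝⁿ`, their exponential maps, conjugate covectors. -/

open scoped ContDiff
open Set

namespace Pool.Agent.H70.SR

/-- The manifold `ℝⁿ`; also the space of covectors at a point (in the canonical coordinates). -/
abbrev R (n : ℕ) := Fin n → ℝ

/-- The vector fields obtained from a finite family by iterated Lie brackets. -/
inductive Bracket {n m : ℕ} (X : Fin m → R n → R n) : (R n → R n) → Prop
  | frame (i : Fin m) : Bracket X (X i)
  | lie {V W : R n → R n} : Bracket X V → Bracket X W → Bracket X (VectorField.lieBracket ℝ V W)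

/-- A sub-Riemannian structure of rank `m` on the manifold `ℝⁿ`, given by a global orthonormal
frame `X`: the distribution is spanned by the linearly independent smooth vector fields `X i`, it is
bracket-generating, and the inner product is the one for which the `X i` are orthonormal. -/
structure Structure (n m : ℕ) where
  X : Fin m → R n → R n
  smooth : ∀ i, ContDiff ℝ ∞ (X i)
  independent : ∀ q, LinearIndependent ℝ fun i => X i q
  generating : ∀ q, Submodule.span ℝ {v | ∃ V, Bracket X V ∧ V q = v} = ⊤

variable {n m : ℕ}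

/-- The Hamiltonian `H(q, p) = ½ ∑ᵢ ⟨p, Xᵢ(q)⟩²` of the normal geodesics. -/
noncomputable def Structure.ham (S : Structure n m) (q p : R n) : ℝ :=
  (∑ i, (∑ j, p j * S.X i q j) ^ 2) / 2

/-- `(q, p)` is a trajectory of the normal Hamiltonian flow: `q' = ∂H/∂p`, `p' = - ∂H/∂q`. -/
def Structure.IsTrajectory (S : Structure n m) (q p : ℝ → R n) : Prop :=
  ∀ (t : ℝ) (j : Fin n),
    HasDerivAt (fun s => q s j) (fderiv ℝ (fun π => S.ham (q t) π) (p t) (Pi.single j 1)) t ∧
    HasDerivAt (fun s => p s j) (-fderiv ℝ (fun y => S.ham y (p t)) (q t) (Pi.single j 1)) t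

/-- `ex` is the exponential map at `q₀`, defined on the whole cotangent space: `ex l` is the
projection of the time-one point of the trajectory of the normal Hamiltonian flow starting at `l`. -/
def Structure.IsExp (S : Structure n m) (q₀ : R n) (ex : R n → R n) : Prop :=
  ∀ l, ∃ q p : ℝ → R n, S.IsTrajectory q p ∧ q 0 = q₀ ∧ p 0 = l ∧ ex l = q 1

/-- `l` is a conjugate covector. -/
def IsConjugate (ex : R n → R n) (l : R n) : Prop :=
  l ≠ 0 ∧ ¬ Function.Injective (fderiv ℝ ex l)

/-- `l` is a regular conjugate covector: it has a neighbourhood `U` such that every straight line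
through `0` contains at most one conjugate covector lying in `U`. -/
def IsRegular (ex : R n → R n) (l : R n) : Prop :=
  IsConjugate ex l ∧ ∃ U : Set (R n), IsOpen U ∧ l ∈ U ∧
    ∀ v : R n, v ≠ 0 → {μ | μ ∈ U ∧ IsConjugate ex μ ∧ ∃ t : ℝ, μ = t • v}.Subsingleton

/-- The regular conjugate locus. -/
def regularLocus (ex : R n → R n) : Set (R n) := {l | IsRegular ex l}

/-- Near its point `a` the set `A` is an embedded submanifold of class `C^k` (of any dimension):
some `C^k` diffeomorphism from a neighbourhood of `a` to an open set maps `A` to a linear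
subspace. -/
def IsSubmanifoldAt (k : WithTop ℕ∞) (A : Set (R n)) (a : R n) : Prop :=
  ∃ φ : OpenPartialHomeomorph (R n) (R n), a ∈ φ.source ∧
    ContDiffOn ℝ k φ φ.source ∧ ContDiffOn ℝ k φ.symm φ.target ∧
    ∃ W : Submodule ℝ (R n), φ '' (A ∩ φ.source) = φ.target ∩ W

/-- `A` is an embedded submanifold of class `C^k`. -/
def IsSubmanifold (k : WithTop ℕ∞) (A : Set (R n)) : Prop :=
  ∀ a ∈ A, IsSubmanifoldAt k A a

end Pool.Agent.H70.SR
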