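import Mathlib
import Pool.Graph.R_seed8.Helper186.Flow
import Pool.Graph.R_seed8.GR.Flow

/-! The Hamiltonian vector field, its completeness, the smooth flow. -/

open scoped ContDiff Topology Manifold
open Set

namespace Pool.Agent.H70.SR

/-- the polynomial `f` -/
noncomputable def f (x : ℝ) : ℝ := 2 * x - 6 * x ^ 2 + 8 * x ^ 3 - 6 * x ^ 4 + 12 / 5 * x ^ 5
/-- its derivative -/
noncomputable def f1 (x : ℝ) : ℝ := 2 - 12 * x + 24 * x ^ 2 - 24 * x ^ 3 + 12 * x ^ 4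
/-- its second derivative -/
noncomputable def f2 (x : ℝ) : ℝ := -12 + 48 * x - 72 * x ^ 2 + 48 * x ^ 3

lemma hasDerivAt_f (x : ℝ) : HasDerivAt f (f1 x) x := by
  have h := ((((hasDerivAt_id x).const_mul 2).sub ((hasDerivAt_pow 2 x).const_mul 6)).add
    ((hasDerivAt_pow 3 x).const_mul 8)).sub ((hasDerivAt_pow 4 x).const_mul 6) |>.add
    ((hasDerivAt_pow 5 x).const_mul (12/5))
  refine h.congr_deriv ?_
  simp only [f1]; push_cast; ring

lemma hasDerivAt_f1 (x : ℝ) : HasDerivAt f1 (f2 x) x := by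
  have h := ((((hasDerivAt_const x (2:ℝ)).sub ((hasDerivAt_id x).const_mul 12)).add
    ((hasDerivAt_pow 2 x).const_mul 24)).sub ((hasDerivAt_pow 3 x).const_mul 24)).add
    ((hasDerivAt_pow 4 x).const_mul 12)
  refine h.congr_deriv ?_
  simp only [f2]; push_cast; ring

lemma contDiff_f : ContDiff ℝ ∞ f := by unfold f; fun_prop
lemma contDiff_f1 : ContDiff ℝ ∞ f1 := by unfold f1; fun_prop
lemma contDiff_f2 : ContDiff ℝ ∞ f2 := by unfold f2; fun_prop

/-- phase space: coordinates `x, y, z, p_x, p_y, p_z` -/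
abbrev St := Fin 6 → ℝ

/-- the Hamiltonian vector field -/
noncomputable def F (s : St) : St :=
  ![(1 + 12 * s 1 ^ 2) * s 3, s 4 + f (s 0) * s 5, f (s 0) * (s 4 + f (s 0) * s 5),
    -((s 4 + f (s 0) * s 5) * f1 (s 0) * s 5), -(12 * s 1 * s 3 ^ 2), 0]

lemma contDiff_F : ContDiff ℝ ∞ F := by
  rw [contDiff_pi]
  have h1 := contDiff_f
  have h2 := contDiff_f1
  intro i
  fin_cases i <;> simp [F] <;> fun_prop

lemma bd {g g' : ℝ → ℝ} {C a : ℝ} (ha : 0 < a) (hd : ∀ t, HasDerivAt g (g' t) t)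
    (hC : ∀ t ∈ Ioo (-a) a, |g' t| ≤ C) (hC0 : 0 ≤ C) : ∀ t ∈ Ioo (-a) a, |g t| ≤ |g 0| + C * a := by
  intro t ht
  have h := Convex.norm_image_sub_le_of_norm_hasDerivWithin_le (f := g) (f' := g') (C := C)
    (s := Ioo (-a) a) (x := 0) (y := t) (fun x _ => (hd x).hasDerivWithinAt)
    (fun x hx => by simpa using hC x hx) (convex_Ioo _ _) ⟨by linarith, ha⟩ ht
  simp only [Real.norm_eq_abs, sub_zero] at h
  have h1 : |t| ≤ a := abs_le.2 ⟨ht.1.le, ht.2.le⟩
  have h2 : |g t| - |g 0| ≤ |g t - g 0| := abs_sub_abs_le_abs_sub _ _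
  nlinarith [mul_le_mul_of_nonneg_left h1 hC0]

/-- A priori bound for the solutions of the equation slowed down by a factor. -/
lemma apriori (s0 : St) {a : ℝ} (ha : 0 < a) : ∃ B : ℝ, 0 < B ∧ ∀ (γ : ℝ → St) (c : ℝ → ℝ),
    (∀ t, c t ∈ Icc (0:ℝ) 1) → γ 0 = s0 → (∀ t, HasDerivAt γ (c t • F (γ t)) t) →
    ∀ t ∈ Ioo (-a) a, ‖γ t‖ ≤ B := by
  set E0 : ℝ := (1 + 12 * s0 1 ^ 2) * s0 3 ^ 2 + (s0 4 + f (s0 0) * s0 5) ^ 2 with hE0
  have hE0' : 0 ≤ E0 := by positivity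
  set h := √E0 with hh
  have hh0 : 0 ≤ h := Real.sqrt_nonneg _
  have hhE : h ^ 2 = E0 := Real.sq_sqrt hE0'
  set Y := |s0 1| + h * a with hY
  set X := |s0 0| + ((1 + 12 * Y ^ 2) * h) * a with hX
  obtain ⟨Mf, hMf⟩ := (isCompact_Icc (a := -X) (b := X)).exists_bound_of_continuousOn
    contDiff_f.continuous.continuousOn
  have hX0 : 0 ≤ X := by positivity
  have hMf0 : 0 ≤ Mf := (norm_nonneg _).trans (hMf 0 ⟨by linarith, hX0⟩)
  set Z := |s0 2| + (Mf * h) * a with hZ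
  have hY0 : 0 ≤ Y := by positivity
  have hZ0 : 0 ≤ Z := by positivity
  refine ⟨1 + X + Y + Z + h + (h + Mf * |s0 5|) + |s0 5|, by positivity, ?_⟩
  intro γ c hc h0 hd
  have hd' : ∀ i t, HasDerivAt (fun t => γ t i) (c t * F (γ t) i) t := by
    intro i t
    have := hasDerivAt_pi.1 (hd t) i
    simpa using this
  have dx : ∀ t, HasDerivAt (fun t => γ t 0) (c t * ((1 + 12 * γ t 1 ^ 2) * γ t 3)) t :=
    fun t => by simpa [F] using hd' 0 t
  have dy : ∀ t, HasDerivAt (fun t => γ t 1) (c t * (γ t 4 + f (γ t 0) * γ t 5)) t :=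
    fun t => by simpa [F] using hd' 1 t
  have dz : ∀ t, HasDerivAt (fun t => γ t 2)
      (c t * (f (γ t 0) * (γ t 4 + f (γ t 0) * γ t 5))) t :=
    fun t => by simpa [F] using hd' 2 t
  have dpx : ∀ t, HasDerivAt (fun t => γ t 3)
      (c t * (-((γ t 4 + f (γ t 0) * γ t 5) * f1 (γ t 0) * γ t 5))) t :=
    fun t => by simpa [F] using hd' 3 t
  have dpy : ∀ t, HasDerivAt (fun t => γ t 4) (c t * (-(12 * γ t 1 * γ t 3 ^ 2))) t :=
    fun t => by simpa [F] using hd' 4 t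
  have dk : ∀ t, HasDerivAt (fun t => γ t 5) 0 t :=
    fun t => by simpa [F] using hd' 5 t
  have hk : ∀ t, γ t 5 = s0 5 := by
    intro t
    have := is_const_of_deriv_eq_zero (f := fun t => γ t 5) (fun t => (dk t).differentiableAt)
      (fun t => (dk t).deriv) t 0
    rw [this, h0]
  -- energy
  have hen : ∀ t, (1 + 12 * γ t 1 ^ 2) * γ t 3 ^ 2 + (γ t 4 + f (γ t 0) * γ t 5) ^ 2 = E0 := by
    have hder : ∀ t, HasDerivAt (fun t => (1 + 12 * γ t 1 ^ 2) * γ t 3 ^ 2 +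
        (γ t 4 + f (γ t 0) * γ t 5) ^ 2) 0 t := by
      intro t
      have e1 := (((dy t).pow 2).const_mul 12).const_add 1
      have e2 := e1.mul ((dpx t).pow 2)
      have e3 := (hasDerivAt_f (γ t 0)).comp t (dx t)
      have e4 := ((dpy t).add (e3.mul (dk t))).pow 2
      refine (e2.add e4).congr_deriv ?_
      simp only [Function.comp, Pi.add_apply, Pi.mul_apply, Pi.pow_apply]
      push_cast
      ring
    intro t
    have := is_const_of_deriv_eq_zero (f := fun t => (1 + 12 * γ t 1 ^ 2) * γ t 3 ^ 2 +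
        (γ t 4 + f (γ t 0) * γ t 5) ^ 2) (fun t => (hder t).differentiableAt)
      (fun t => (hder t).deriv) t 0
    rw [this, h0]
  have hpx : ∀ t, |γ t 3| ≤ h := by
    intro t
    apply abs_le_of_sq_le_sq _ hh0
    rw [hhE, ← hen t]
    nlinarith [sq_nonneg (γ t 4 + f (γ t 0) * γ t 5), sq_nonneg (γ t 1 * γ t 3)]
  have hu : ∀ t, |γ t 4 + f (γ t 0) * γ t 5| ≤ h := by
    intro t
    apply abs_le_of_sq_le_sq _ hh0
    rw [hhE, ← hen t]
    have : 0 ≤ (1 + 12 * γ t 1 ^ 2) * γ t 3 ^ 2 := by positivity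
    linarith
  have hcu : ∀ t, ∀ w C : ℝ, |w| ≤ C → |c t * w| ≤ C := by
    intro t w C hw
    rw [abs_mul, abs_of_nonneg (hc t).1]
    calc c t * |w| ≤ 1 * |w| := by gcongr; exact (hc t).2
      _ = |w| := one_mul _
      _ ≤ C := hw
  have hy : ∀ t ∈ Ioo (-a) a, |γ t 1| ≤ Y := by
    have := bd ha dy (C := h) (fun t _ => hcu t _ _ (hu t)) hh0
    simpa [h0] using this
  have hx : ∀ t ∈ Ioo (-a) a, |γ t 0| ≤ X := by
    have := bd ha dx (C := (1 + 12 * Y ^ 2) * h) (fun t ht => hcu t _ _ (by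
      rw [abs_mul]
      have : |1 + 12 * γ t 1 ^ 2| ≤ 1 + 12 * Y ^ 2 := by
        rw [abs_of_nonneg (by positivity)]
        have := hy t ht
        have : γ t 1 ^ 2 ≤ Y ^ 2 := sq_le_sq' (by linarith [neg_abs_le (γ t 1)])
          (by linarith [le_abs_self (γ t 1)])
        linarith
      exact mul_le_mul this (hpx t) (abs_nonneg _) (by positivity))) (by positivity)
    simpa [h0] using this
  have hf : ∀ t ∈ Ioo (-a) a, |f (γ t 0)| ≤ Mf := by
    intro t ht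
    exact hMf _ (abs_le.1 (hx t ht))
  have hz : ∀ t ∈ Ioo (-a) a, |γ t 2| ≤ Z := by
    have := bd ha dz (C := Mf * h) (fun t ht => hcu t _ _ (by
      rw [abs_mul]
      exact mul_le_mul (hf t ht) (hu t) (abs_nonneg _) hMf0)) (by positivity)
    simpa [h0] using this
  have hpy : ∀ t ∈ Ioo (-a) a, |γ t 4| ≤ h + Mf * |s0 5| := by
    intro t ht
    have e1 := hu t
    have e2 : |f (γ t 0) * γ t 5| ≤ Mf * |s0 5| := by
      rw [abs_mul, hk t]
      exact mul_le_mul_of_nonneg_right (hf t ht) (abs_nonneg _)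
    calc |γ t 4| = |(γ t 4 + f (γ t 0) * γ t 5) - f (γ t 0) * γ t 5| := by ring_nf
      _ ≤ |γ t 4 + f (γ t 0) * γ t 5| + |f (γ t 0) * γ t 5| := abs_sub _ _
      _ ≤ _ := by linarith
  intro t ht
  have hM5 : 0 ≤ Mf * |s0 5| := by positivity
  have h5 : 0 ≤ |s0 5| := abs_nonneg _
  rw [pi_norm_le_iff_of_nonneg (by positivity)]
  intro i
  rw [Real.norm_eq_abs]
  fin_cases i
  · have := hx t ht
    simp only [Fin.zero_eta]; linarith
  · have := hy t ht
    simp only [Fin.mk_one]; linarith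
  · have := hz t ht
    change |γ t 2| ≤ _
    linarith
  · have := hpx t
    change |γ t 3| ≤ _
    linarith
  · have := hpy t ht
    change |γ t 4| ≤ _
    linarith
  · have := hk t
    change |γ t 5| ≤ _
    rw [this]
    linarith

lemma exists_sol (s0 : St) {a : ℝ} (ha : 0 < a) :
    ∃ γ : ℝ → St, γ 0 = s0 ∧ ∀ t ∈ Ioo (-a) a, HasDerivAt γ (F (γ t)) t := by
  obtain ⟨B, hB, hap⟩ := apriori s0 ha
  let χ : ContDiffBump (0 : St) := ⟨B, B + 1, hB, by linarith⟩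
  have hχ : ContDiff ℝ ∞ (fun s => χ s • F s) := χ.contDiff.smul contDiff_F
  have hsupp : HasCompactSupport (fun s => χ s • F s) := χ.hasCompactSupport.smul_right
  obtain ⟨K, hK⟩ := (hχ.of_le (by simp) : ContDiff ℝ 1 _).lipschitzWith_of_hasCompactSupport
    hsupp (by simp)
  obtain ⟨M, hM⟩ := hχ.continuous.bounded_above_of_compact_support hsupp
  have hM0 : 0 ≤ M := (norm_nonneg _).trans (hM 0)
  obtain ⟨γ, h0, h1⟩ := Pool.Agent.GR.Flow.exists_solution hK (M := M.toNNReal)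
    (fun x => by rw [Real.coe_toNNReal _ hM0]; exact hM x) s0
  refine ⟨γ, h0, fun t ht => ?_⟩
  have hb := hap γ (fun t => χ (γ t)) (fun t => ⟨χ.nonneg, χ.le_one⟩) h0 h1 t ht
  have hone : χ (γ t) = 1 := χ.one_of_mem_closedBall (by simpa using hb)
  have := h1 t
  simp only [hone, one_smul] at this
  exact this

/-- the vector field as a section of the tangent bundle -/
noncomputable def VF (x : St) : TangentSpace 𝓘(ℝ, St) x := F x

lemma contMDiff_VF : ContMDiff 𝓘(ℝ, St) 𝓘(ℝ, St).tangent ∞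
    (fun x => (⟨x, VF x⟩ : TangentBundle 𝓘(ℝ, St) St)) :=
  contMDiff_vectorSpace_iff_contDiff.2 contDiff_F

lemma integral_iff {γ : ℝ → St} : IsMIntegralCurve γ VF ↔ ∀ t, HasDerivAt γ (F (γ t)) t := by
  unfold IsMIntegralCurve
  refine forall_congr' fun t => ?_
  rw [hasMFDerivAt_iff_hasFDerivAt]
  rfl

lemma exists_flow : ∃ Fl : St → ℝ → St, (∀ x, Fl x 0 = x) ∧
    (∀ x t, HasDerivAt (Fl x) (F (Fl x t)) t) ∧
    ContDiff ℝ ∞ (fun p : St × ℝ => Fl p.1 p.2) ∧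
    ∀ γ : ℝ → St, (∀ t, HasDerivAt γ (F (γ t)) t) → γ = Fl (γ 0) := by
  have hC1 := contMDiff_VF.of_le (m := 1) (by simp)
  have hex : ∀ x : St, ∃ γ : ℝ → St, γ 0 = x ∧ IsMIntegralCurve γ VF := by
    intro x
    rw [exists_isMIntegralCurve_iff_exists_isMIntegralCurveOn_Ioo hC1]
    intro a
    obtain ⟨γ, h0, h1⟩ := exists_sol x (a := |a| + 1) (by positivity)
    refine ⟨γ, h0, fun t ht => ?_⟩
    have ht' : t ∈ Ioo (-(|a| + 1)) (|a| + 1) :=
      ⟨by linarith [ht.1, le_abs_self a], by linarith [ht.2, le_abs_self a]⟩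
    exact (h1 t ht').hasFDerivAt.hasMFDerivAt.hasMFDerivWithinAt
  choose Fl h0 h1 using hex
  refine ⟨Fl, h0, fun x => integral_iff.1 (h1 x), ?_, ?_⟩
  · have h := Pool.Agent.Helper186.contMDiff_flow contMDiff_VF h0 h1
    rw [← modelWithCornersSelf_prod, chartedSpaceSelf_prod] at h
    exact contMDiff_iff_contDiff.1 h
  · intro γ hγ
    exact isMIntegralCurve_Ioo_eq_of_contMDiff_boundaryless (t₀ := 0) hC1 (integral_iff.2 hγ)
      (h1 _) (h0 _).symm

/-- the flow -/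
noncomputable def Fl : St → ℝ → St := exists_flow.choose

lemma Fl_zero (x : St) : Fl x 0 = x := exists_flow.choose_spec.1 x
lemma Fl_deriv (x : St) (t : ℝ) : HasDerivAt (Fl x) (F (Fl x t)) t :=
  exists_flow.choose_spec.2.1 x t
lemma Fl_smooth : ContDiff ℝ ∞ (fun p : St × ℝ => Fl p.1 p.2) := exists_flow.choose_spec.2.2.1
lemma Fl_unique {γ : ℝ → St} (h : ∀ t, HasDerivAt γ (F (γ t)) t) : γ = Fl (γ 0) :=
  exists_flow.choose_spec.2.2.2 γ h

end Pool.Agent.H70.SR
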