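import Mathlib
import Pool.Agent.H70.SR.Defs

/-! A criterion for not being a submanifold. -/

open scoped ContDiff Topology
open Set Filter

namespace Pool.Agent.H70.SR

variable {n : ℕ}

/-- a linear projection onto a subspace -/
lemma exists_proj (T : Submodule ℝ (R n)) : ∃ π : R n →ₗ[ℝ] R n, (∀ v, π v ∈ T) ∧
    ∀ v ∈ T, π v = v := by
  obtain ⟨N, hN⟩ := T.exists_isCompl
  refine ⟨T.subtype.comp (T.projectionOnto N hN), fun v => ?_, fun v hv => ?_⟩
  · simp
  · have := Submodule.projectionOnto_apply_left hN ⟨v, hv⟩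
    simp only [LinearMap.comp_apply]
    exact congrArg Subtype.val this

theorem not_submanifold {S : Set (R n)} {a : R n} (ha0 : a ≠ 0) (haS : a ∈ S)
    (σ : R n ≃L[ℝ] R n) (hσ2 : ∀ v, σ (σ v) = v) (hσa : σ a = a)
    (hfix : ∀ v, σ v = v → ∃ c : ℝ, v = c • a)
    (hσS : ∀ᶠ x in 𝓝 a, x ∈ S → σ x ∈ S)
    (hray : ∀ᶠ τ : ℝ in 𝓝[≠] 0, (1 + τ) • a ∉ S)
    (x : ℕ → R n) (r : ℕ → ℝ) (hxS : ∀ k, x k ∈ S) (hx : Tendsto x atTop (𝓝 a))
    (hxr : Tendsto (fun k => (r k)⁻¹ • (x k - a)) atTop (𝓝 a)) :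
    ¬ IsSubmanifoldAt 1 S a := by
  rintro ⟨φ, haφ, hφ, hφs, W, hW⟩
  -- membership
  have hmem : ∀ y ∈ φ.source, (y ∈ S ↔ φ y ∈ W) := by
    intro y hy
    constructor
    · intro h
      have : φ y ∈ φ '' (S ∩ φ.source) := ⟨y, ⟨h, hy⟩, rfl⟩
      rw [hW] at this
      exact this.2
    · intro h
      have : φ y ∈ φ.target ∩ W := ⟨φ.map_source hy, h⟩
      rw [← hW] at this
      obtain ⟨z, hz, hzy⟩ := this
      have := φ.injOn hz.2 hy hzy
      rw [← this]; exact hz.1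
  have hWc : IsClosed (W : Set (R n)) := W.closed_of_finiteDimensional
  have hsrc : φ.source ∈ 𝓝 a := φ.open_source.mem_nhds haφ
  have hct : φ a ∈ φ.target := φ.map_source haφ
  have htgt : φ.target ∈ 𝓝 (φ a) := φ.open_target.mem_nhds hct
  have hca : ContDiffAt ℝ 1 φ a := hφ.contDiffAt hsrc
  have hcb : ContDiffAt ℝ 1 φ.symm (φ a) := hφs.contDiffAt htgt
  set A := fderiv ℝ φ a with hA
  set B := fderiv ℝ φ.symm (φ a) with hB
  have hAs : HasStrictFDerivAt φ A a := hca.hasStrictFDerivAt (by simp)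
  have hBs : HasStrictFDerivAt φ.symm B (φ a) := hcb.hasStrictFDerivAt (by simp)
  have hBA : ∀ v, B (A v) = v := by
    have h1 := hBs.hasFDerivAt.comp a hAs.hasFDerivAt
    have h2 : (φ.symm ∘ φ) =ᶠ[𝓝 a] id := by
      filter_upwards [hsrc] with y hy
      exact φ.left_inv hy
    have h3 := (hasFDerivAt_id (𝕜 := ℝ) a).congr_of_eventuallyEq h2
    have h4 := h1.unique h3
    intro v
    have := congrArg (fun L : R n →L[ℝ] R n => L v) h4
    simpa using this
  have hAB : ∀ v, A (B v) = v := by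
    have h0 : HasFDerivAt φ A (φ.symm (φ a)) := by rw [φ.left_inv haφ]; exact hAs.hasFDerivAt
    have h1 := h0.comp (φ a) hBs.hasFDerivAt
    have h2 : (φ ∘ φ.symm) =ᶠ[𝓝 (φ a)] id := by
      filter_upwards [htgt] with y hy
      exact φ.right_inv hy
    have h3 := (hasFDerivAt_id (𝕜 := ℝ) (φ a)).congr_of_eventuallyEq h2
    have h4 := h1.unique h3
    intro v
    have := congrArg (fun L : R n →L[ℝ] R n => L v) h4
    simpa using this
  have hφaW : φ a ∈ W := (hmem a haφ).1 haS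
  -- the tangent space
  set T : Submodule ℝ (R n) := W.comap (A : R n →ₗ[ℝ] R n) with hT
  have hTm : ∀ v, v ∈ T ↔ A v ∈ W := fun v => Iff.rfl
  have haT : a ∈ T := by
    rw [hTm]
    have h1 : Tendsto (fun k => (r k)⁻¹ • (φ (a + (x k - a)) - φ a)) atTop (𝓝 (A a)) :=
      (hAs.hasFDerivAt.hasFDerivWithinAt (s := univ)).lim (l := atTop)
        (by simpa using hx.sub_const a) (by simp) hxr
    refine hWc.mem_of_tendsto h1 ?_
    filter_upwards [hx hsrc] with k hk
    have h2 : φ (x k) ∈ W := (hmem _ hk).1 (hxS k)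
    have h3 : a + (x k - a) = x k := by abel
    rw [h3]
    exact W.smul_mem _ (W.sub_mem h2 hφaW)
  have hσT : ∀ v ∈ T, σ v ∈ T := by
    intro v hv
    rw [hTm] at hv ⊢
    have c1 : HasDerivAt (fun τ : ℝ => φ a + τ • A v) (A v) 0 := by
      simpa using ((hasDerivAt_id (0:ℝ)).smul_const (A v)).const_add (φ a)
    have c2 : HasDerivAt (fun τ : ℝ => φ.symm (φ a + τ • A v)) (B (A v)) 0 := by
      have h0 : HasFDerivAt φ.symm B (φ a + (0:ℝ) • A v) := by simpa using hBs.hasFDerivAt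
      exact h0.comp_hasDerivAt 0 c1
    rw [hBA] at c2
    have c3 : HasDerivAt (fun τ : ℝ => σ (φ.symm (φ a + τ • A v))) (σ v) 0 :=
      (σ : R n →L[ℝ] R n).hasFDerivAt.comp_hasDerivAt 0 c2
    have c4 : HasDerivAt (fun τ : ℝ => φ (σ (φ.symm (φ a + τ • A v)))) (A (σ v)) 0 := by
      have h0 : HasFDerivAt φ A (σ (φ.symm (φ a + (0:ℝ) • A v))) := by
        simp only [zero_smul, add_zero, φ.left_inv haφ, hσa]
        exact hAs.hasFDerivAt
      exact h0.comp_hasDerivAt 0 c3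
    rw [hasDerivAt_iff_tendsto_slope] at c4
    refine hWc.mem_of_tendsto c4 ?_
    have e1 : ∀ᶠ τ : ℝ in 𝓝 0, φ a + τ • A v ∈ φ.target := by
      have : Tendsto (fun τ : ℝ => φ a + τ • A v) (𝓝 0) (𝓝 (φ a)) := by
        simpa using c1.continuousAt.tendsto
      exact this htgt
    have e2 : Tendsto (fun τ : ℝ => φ.symm (φ a + τ • A v)) (𝓝 0) (𝓝 a) := by
      have := c2.continuousAt.tendsto
      simpa [φ.left_inv haφ] using this
    have e3 : Tendsto (fun τ : ℝ => σ (φ.symm (φ a + τ • A v))) (𝓝 0) (𝓝 a) := by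
      have := c3.continuousAt.tendsto
      simpa [φ.left_inv haφ, hσa] using this
    have e4 : ∀ᶠ τ : ℝ in 𝓝 0, φ (σ (φ.symm (φ a + τ • A v))) ∈ W := by
      filter_upwards [e1, e2 hσS, e3 hsrc] with τ h1 h2 h3
      have h4 : φ.symm (φ a + τ • A v) ∈ S := by
        rw [hmem _ (φ.map_target h1), φ.right_inv h1]
        exact W.add_mem hφaW (W.smul_mem _ hv)
      exact (hmem _ h3).1 (h2 h4)
    filter_upwards [e4.filter_mono nhdsWithin_le_nhds] with τ h
    rw [slope_def_module]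
    refine W.smul_mem _ (W.sub_mem h ?_)
    simp only [zero_smul, add_zero, φ.left_inv haφ, hσa]
    exact hφaW
  -- projections
  obtain ⟨π0, h01, h02⟩ := exists_proj T
  obtain ⟨PW, hP1, hP2⟩ := exists_proj W
  set σl : R n →ₗ[ℝ] R n := σ.toLinearEquiv.toLinearMap with hσl
  set π : R n →ₗ[ℝ] R n := (1/2 : ℝ) • (π0 + σl.comp (π0.comp σl)) with hπ
  have hπv : ∀ v, π v = (1/2 : ℝ) • (π0 v + σ (π0 (σ v))) := fun v => rfl
  have hπT : ∀ v, π v ∈ T := fun v => by
    rw [hπv]; exact T.smul_mem _ (T.add_mem (h01 _) (hσT _ (h01 _)))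
  have hπid : ∀ v ∈ T, π v = v := fun v hv => by
    rw [hπv, h02 v hv, h02 _ (hσT v hv), hσ2, ← two_smul ℝ v, smul_smul]; norm_num
  have hπσ : ∀ v, π (σ v) = σ (π v) := fun v => by
    rw [hπv, hπv, hσ2, map_smul, map_add, hσ2, add_comm]
  set πc : R n →L[ℝ] R n := LinearMap.toContinuousLinearMap π with hπc
  set Pc : R n →L[ℝ] R n := LinearMap.toContinuousLinearMap (LinearMap.id - PW) with hPc
  have hPcv : ∀ v, Pc v = v - PW v := fun v => rfl
  have hPc0 : ∀ v, Pc v ∈ W → Pc v = 0 := by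
    intro v hv
    have h1 := hP2 _ hv
    rw [hPcv] at h1 ⊢
    rw [map_sub, hP2 _ (hP1 v), sub_self] at h1
    exact h1.symm
  have hPcW : ∀ v, Pc v = 0 → v ∈ W := by
    intro v hv
    rw [hPcv, sub_eq_zero] at hv
    rw [hv]; exact hP1 v
  have hPcW' : ∀ v ∈ W, Pc v = 0 := by
    intro v hv
    rw [hPcv, hP2 v hv, sub_self]
  -- the straightening map
  set K : R n → R n := fun y => πc (y - a) + B (Pc (φ y - φ a)) with hK
  set K' : R n →L[ℝ] R n := πc + B.comp (Pc.comp A) with hK'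
  have hKd : HasStrictFDerivAt K K' a := by
    have k1 : HasStrictFDerivAt (fun y => πc (y - a)) πc a := by
      have := πc.hasStrictFDerivAt.comp a ((hasStrictFDerivAt_id a).sub_const a)
      simpa using this
    have k2 : HasStrictFDerivAt (fun y => B (Pc (φ y - φ a))) (B.comp (Pc.comp A)) a := by
      have := (B.comp Pc).hasStrictFDerivAt.comp a (hAs.sub_const (φ a))
      exact this
    exact k1.add k2
  have hqT : ∀ w, B (Pc w) ∈ T → Pc w = 0 := by
    intro w hw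
    rw [hTm, hAB] at hw
    exact hPc0 w hw
  have hKinj : Function.Injective K' := by
    rw [injective_iff_map_eq_zero]
    intro v hv
    have h1 : π v + B (Pc (A v)) = 0 := hv
    have h2 : B (Pc (A v)) ∈ T := by
      have : B (Pc (A v)) = - π v := by
        rw [eq_neg_iff_add_eq_zero, add_comm]; exact h1
      rw [this]; exact T.neg_mem (hπT v)
    have h3 := hqT _ h2
    have h4 : v ∈ T := hPcW _ h3
    rw [h3, map_zero, add_zero, hπid v h4] at h1
    exact h1
  let Ke : R n ≃L[ℝ] R n :=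
    (LinearEquiv.ofInjectiveEndo (K' : R n →ₗ[ℝ] R n) hKinj).toContinuousLinearEquiv
  have hKe : (Ke : R n →L[ℝ] R n) = K' := by ext v : 1; rfl
  have hKd' : HasStrictFDerivAt K (Ke : R n →L[ℝ] R n) a := by rw [hKe]; exact hKd
  set ψ := hKd'.toOpenPartialHomeomorph K with hψ
  have hψK : ∀ y, ψ y = K y := fun y => rfl
  have haψ : a ∈ ψ.source := hKd'.mem_toOpenPartialHomeomorph_source
  have hψs : ψ.source ∈ 𝓝 a := ψ.open_source.mem_nhds haψ
  have hKa : K a = 0 := by simp [hK]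
  have hψt : ψ.target ∈ 𝓝 (0 : R n) := by
    have := ψ.open_target.mem_nhds (ψ.map_source haψ)
    rwa [hψK, hKa] at this
  have hψinv : Tendsto ψ.symm (𝓝 0) (𝓝 a) := by
    have h1 := ψ.continuousAt_symm (ψ.map_source haψ)
    have h2 := h1.tendsto
    rwa [ψ.left_inv haψ, hψK, hKa] at h2
  have hσt : Tendsto σ (𝓝 a) (𝓝 a) := by
    have := σ.continuous.continuousAt (x := a)
    have h2 := this.tendsto
    rwa [hσa] at h2
  have hτ : Tendsto (fun τ : ℝ => τ • a) (𝓝 0) (𝓝 0) := by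
    have : Continuous (fun τ : ℝ => τ • a) := by fun_prop
    simpa using this.tendsto 0
  have hgood : ∀ᶠ τ : ℝ in 𝓝 0, (1 + τ) • a ∈ S := by
    have g1 : ∀ᶠ y in 𝓝 a, (y ∈ S → σ y ∈ S) ∧ y ∈ φ.source ∧ y ∈ ψ.source ∧
        σ y ∈ φ.source ∧ σ y ∈ ψ.source := by
      filter_upwards [hσS, hsrc, hψs, hσt hsrc, hσt hψs] with y h1 h2 h3 h4 h5
      exact ⟨h1, h2, h3, h4, h5⟩
    have g2 := (hψinv.comp hτ).eventually g1
    have g3 : ∀ᶠ τ : ℝ in 𝓝 0, τ • a ∈ ψ.target := hτ hψt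
    filter_upwards [g2, g3] with τ ht ht3
    obtain ⟨t1, t2, t3, t4, t5⟩ := ht
    simp only [Function.comp] at t1 t2 t3 t4 t5
    set y := ψ.symm (τ • a) with hy
    have hKy : K y = τ • a := by rw [← hψK]; exact ψ.right_inv ht3
    have hKy' : π (y - a) + B (Pc (φ y - φ a)) = τ • a := hKy
    have h2 : B (Pc (φ y - φ a)) ∈ T := by
      have : B (Pc (φ y - φ a)) = τ • a - π (y - a) := by rw [← hKy']; abel
      rw [this]; exact T.sub_mem (T.smul_mem _ haT) (hπT _)
    have h3 := hqT _ h2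
    have h4 : φ y - φ a ∈ W := hPcW _ h3
    have h5 : φ y ∈ W := by
      have := W.add_mem h4 hφaW
      simpa using this
    have h6 : y ∈ S := (hmem y t2).2 h5
    have h7 : σ y ∈ S := t1 h6
    have h8 : φ (σ y) ∈ W := (hmem _ t4).1 h7
    have h9 : π (y - a) = τ • a := by rw [h3, map_zero, add_zero] at hKy'; exact hKy'
    have h10 : K (σ y) = K y := by
      rw [hKy]
      change π (σ y - a) + B (Pc (φ (σ y) - φ a)) = τ • a
      rw [hPcW' _ (W.sub_mem h8 hφaW), map_zero, add_zero]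
      have : σ y - a = σ (y - a) := by rw [map_sub, hσa]
      rw [this, hπσ, h9, map_smul, hσa]
    have h11 : σ y = y := ψ.injOn t5 t3 (by rw [hψK, hψK]; exact h10)
    obtain ⟨c, hc⟩ := hfix y h11
    have h12 : (c - 1) • a = τ • a := by
      rw [← h9, hc, hπid _ (T.sub_mem (T.smul_mem _ haT) haT), sub_smul, one_smul]
    have h13 : c - 1 = τ := smul_left_injective ℝ ha0 h12
    have h14 : (1 + τ) • a = y := by rw [hc, ← h13]; congr 1; ring
    rw [h14]; exact h6
  have hne : (𝓝[≠] (0:ℝ)).NeBot := inferInstance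
  obtain ⟨τ, h1, h2⟩ := (hray.and (hgood.filter_mono nhdsWithin_le_nhds)).exists
  exact h1 h2

end Pool.Agent.H70.SR
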