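import Mathlib
import Pool.Agent.H70.SR.Field

/-! Partial derivatives of the flow with respect to the initial covector. -/

open scoped ContDiff Topology
open Set

namespace Pool.Agent.H70.SR

/-- covectors at the origin -/
abbrev P := Fin 3 → ℝ

/-- the partial derivative in the direction `v` of the second variable -/
noncomputable def pd (v : P) (G : ℝ × P → ℝ) (p : ℝ × P) : ℝ := fderiv ℝ G p (0, v)

lemma pd_smooth {G : ℝ × P → ℝ} (hG : ContDiff ℝ ∞ G) (v : P) : ContDiff ℝ ∞ (pd v G) :=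
  (hG.fderiv_right (m := ∞) (by simp)).clm_apply contDiff_const

lemma time_deriv {G : ℝ × P → ℝ} (hG : ContDiff ℝ ∞ G) (p : ℝ × P) :
    HasDerivAt (fun t => G (t, p.2)) (fderiv ℝ G p (1, 0)) p.1 := by
  have h1 : HasFDerivAt G (fderiv ℝ G p) p := (hG.differentiable (by simp) p).hasFDerivAt
  have h2 : HasDerivAt (fun t : ℝ => (t, p.2)) (1, 0) p.1 :=
    (hasDerivAt_id p.1).prodMk (hasDerivAt_const _ _)
  exact HasFDerivAt.comp_hasDerivAt (f := fun t : ℝ => (t, p.2)) p.1 h1 h2

lemma slice {G : ℝ × P → ℝ} (hG : ContDiff ℝ ∞ G) (v : P) (p : ℝ × P) :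
    HasDerivAt (fun s : ℝ => G (p.1, p.2 + s • v)) (pd v G p) 0 := by
  have h1 : HasFDerivAt G (fderiv ℝ G p) (p.1, p.2 + (0:ℝ) • v) := by
    simpa using (hG.differentiable (by simp) p).hasFDerivAt
  have h2 : HasDerivAt (fun s : ℝ => (p.1, p.2 + s • v)) ((0:ℝ), v) 0 := by
    refine (hasDerivAt_const _ _).prodMk ?_
    simpa using ((hasDerivAt_id (0:ℝ)).smul_const v).const_add p.2
  exact HasFDerivAt.comp_hasDerivAt (f := fun s : ℝ => (p.1, p.2 + s • v)) 0 h1 h2

lemma pd_eq {G : ℝ × P → ℝ} (hG : ContDiff ℝ ∞ G) {v : P} {p : ℝ × P} {d : ℝ}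
    (h : HasDerivAt (fun s : ℝ => G (p.1, p.2 + s • v)) d 0) : pd v G p = d :=
  (slice hG v p).unique h

lemma var {G g : ℝ × P → ℝ} (hG : ContDiff ℝ ∞ G)
    (h : ∀ p : ℝ × P, HasDerivAt (fun t => G (t, p.2)) (g p) p.1) {v : P} {p : ℝ × P} {d : ℝ}
    (hd : HasDerivAt (fun s : ℝ => g (p.1, p.2 + s • v)) d 0) :
    HasDerivAt (fun t => pd v G (t, p.2)) d p.1 := by
  have hg : g = fun p => fderiv ℝ G p (1, 0) := by
    ext p
    exact (h p).unique (time_deriv hG p)
  have hgs : ContDiff ℝ ∞ g := by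
    rw [hg]
    exact (hG.fderiv_right (m := ∞) (by simp)).clm_apply contDiff_const
  have h1 : pd v g p = d := pd_eq hgs hd
  have h2 := time_deriv (pd_smooth hG v) p
  have hD : DifferentiableAt ℝ (fderiv ℝ G) p :=
    (hG.fderiv_right (m := ∞) (by simp)).differentiable (by simp) p
  have h3 : fderiv ℝ (pd v G) p (1, 0) = fderiv ℝ (fderiv ℝ G) p (1, 0) (0, v) := by
    have : HasFDerivAt (fun p => fderiv ℝ G p (0, v))
        ((fderiv ℝ (fderiv ℝ G) p).flip (0, v)) p := by
      simpa using hD.hasFDerivAt.clm_apply (hasFDerivAt_const ((0:ℝ), v) p)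
    have h4 : fderiv ℝ (pd v G) p = (fderiv ℝ (fderiv ℝ G) p).flip (0, v) := this.fderiv
    rw [h4]; rfl
  have h4 : pd v g p = fderiv ℝ (fderiv ℝ G) p (0, v) (1, 0) := by
    have : HasFDerivAt (fun p => fderiv ℝ G p (1, 0))
        ((fderiv ℝ (fderiv ℝ G) p).flip ((1:ℝ), (0:P))) p := by
      simpa using hD.hasFDerivAt.clm_apply (hasFDerivAt_const ((1:ℝ), (0:P)) p)
    unfold pd
    rw [hg, this.fderiv]; rfl
  have h5 : IsSymmSndFDerivAt ℝ G p :=
    (hG.contDiffAt (x := p)).isSymmSndFDerivAt (by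
      rw [minSmoothness_of_isRCLikeNormedField]; exact WithTop.coe_le_coe.2 le_top)
  rw [h3, h5.eq, ← h4, h1] at h2
  exact h2

/-- initial condition -/
def ini (l : P) : St := ![0, 0, 0, l 0, l 1, l 2]

lemma ini_smooth : ContDiff ℝ ∞ ini := by
  rw [contDiff_pi]
  intro i
  fin_cases i <;> simp [ini] <;> fun_prop

/-- components of the flow -/
noncomputable def comp (i : Fin 6) (p : ℝ × P) : ℝ := Fl (ini p.2) p.1 i

lemma comp_smooth (i : Fin 6) : ContDiff ℝ ∞ (comp i) := by
  have h : ContDiff ℝ ∞ (fun p : ℝ × P => Fl (ini p.2) p.1) :=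
    Fl_smooth.comp ((ini_smooth.comp contDiff_snd).prodMk contDiff_fst)
  exact contDiff_pi.1 h i

lemma comp_deriv (i : Fin 6) (p : ℝ × P) :
    HasDerivAt (fun t => comp i (t, p.2)) (F (Fl (ini p.2) p.1) i) p.1 :=
  hasDerivAt_pi.1 (Fl_deriv (ini p.2) p.1) i

lemma comp_zero (i : Fin 6) (l : P) : comp i (0, l) = ini l i := by
  simp [comp, Fl_zero]

/-- the third momentum is constant -/
lemma comp5 (p : ℝ × P) : comp 5 p = p.2 2 := by
  have h : ∀ t, HasDerivAt (fun t => comp 5 (t, p.2)) 0 t := fun t => by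
    simpa [F] using comp_deriv 5 (t, p.2)
  have := is_const_of_deriv_eq_zero (f := fun t => comp 5 (t, p.2))
    (fun t => (h t).differentiableAt) (fun t => (h t).deriv) p.1 0
  have h2 := comp_zero 5 p.2
  simp only [ini] at h2
  exact this.trans h2

/-- the velocity `u = p_y + f(x) p_z` -/
noncomputable def U (p : ℝ × P) : ℝ := comp 4 p + f (comp 0 p) * p.2 2

lemma U_smooth : ContDiff ℝ ∞ U := by
  have h0 := comp_smooth 0
  have h4 := comp_smooth 4
  have hf := contDiff_f
  have : ContDiff ℝ ∞ (fun p : ℝ × P => f (comp 0 p)) := hf.comp h0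
  unfold U
  fun_prop

section ode

variable (p : ℝ × P)

lemma dX : HasDerivAt (fun t => comp 0 (t, p.2)) ((1 + 12 * comp 1 p ^ 2) * comp 3 p) p.1 := by
  simpa [F, comp] using comp_deriv 0 p

lemma dY : HasDerivAt (fun t => comp 1 (t, p.2)) (U p) p.1 := by
  have h := comp_deriv 1 p
  have h5 := comp5 p
  simp only [comp] at h5
  simp only [F, Matrix.cons_val, h5] at h
  exact h

lemma dZ : HasDerivAt (fun t => comp 2 (t, p.2)) (f (comp 0 p) * U p) p.1 := by
  have h := comp_deriv 2 p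
  have h5 := comp5 p
  simp only [comp] at h5
  simp only [F, Matrix.cons_val, h5] at h
  exact h

lemma dA : HasDerivAt (fun t => comp 3 (t, p.2)) (-(U p * f1 (comp 0 p) * p.2 2)) p.1 := by
  have h := comp_deriv 3 p
  have h5 := comp5 p
  simp only [comp] at h5
  simp only [F, Matrix.cons_val, h5] at h
  exact h

lemma dB : HasDerivAt (fun t => comp 4 (t, p.2)) (-(12 * comp 1 p * comp 3 p ^ 2)) p.1 := by
  simpa [F, comp] using comp_deriv 4 p

variable (v : P)

/-- slices of the components -/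
lemma cs (i : Fin 6) : HasDerivAt (fun s : ℝ => comp i (p.1, p.2 + s • v)) (pd v (comp i) p) 0 :=
  slice (comp_smooth i) v p

lemma ks : HasDerivAt (fun s : ℝ => (p.2 + s • v) 2) (v 2) 0 := by
  simpa using ((hasDerivAt_id (0:ℝ)).mul_const (v 2)).const_add (p.2 2)

lemma Us : HasDerivAt (fun s : ℝ => U (p.1, p.2 + s • v)) (pd v U p) 0 := slice U_smooth v p

lemma fs : HasDerivAt (fun s : ℝ => f (comp 0 (p.1, p.2 + s • v)))
    (f1 (comp 0 p) * pd v (comp 0) p) 0 := by
  have h := HasDerivAt.comp (h₂ := f) (h := fun s : ℝ => comp 0 (p.1, p.2 + s • v)) 0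
    (hasDerivAt_f _) (cs p v 0)
  simp only [zero_smul, add_zero] at h
  exact h

lemma f1s : HasDerivAt (fun s : ℝ => f1 (comp 0 (p.1, p.2 + s • v)))
    (f2 (comp 0 p) * pd v (comp 0) p) 0 := by
  have h := HasDerivAt.comp (h₂ := f1) (h := fun s : ℝ => comp 0 (p.1, p.2 + s • v)) 0
    (hasDerivAt_f1 _) (cs p v 0)
  simp only [zero_smul, add_zero] at h
  exact h

lemma pdU : pd v U p = pd v (comp 4) p + f1 (comp 0 p) * pd v (comp 0) p * p.2 2
    + f (comp 0 p) * v 2 := by
  apply pd_eq U_smooth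
  have h := (cs p v 4).add ((fs p v).mul (ks p v))
  refine h.congr_deriv ?_
  simp
  ring

lemma vX : HasDerivAt (fun t => pd v (comp 0) (t, p.2))
    (24 * comp 1 p * pd v (comp 1) p * comp 3 p + (1 + 12 * comp 1 p ^ 2) * pd v (comp 3) p)
    p.1 := by
  refine var (comp_smooth 0) dX ?_
  have h := ((((cs p v 1).pow 2).const_mul 12).const_add 1).mul (cs p v 3)
  refine h.congr_deriv ?_
  simp only [zero_smul, add_zero, Pi.pow_apply, Pi.mul_apply]
  push_cast
  ring

lemma vY : HasDerivAt (fun t => pd v (comp 1) (t, p.2)) (pd v U p) p.1 :=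
  var (comp_smooth 1) dY (Us p v)

lemma vZ : HasDerivAt (fun t => pd v (comp 2) (t, p.2))
    (f1 (comp 0 p) * pd v (comp 0) p * U p + f (comp 0 p) * pd v U p) p.1 := by
  refine var (comp_smooth 2) dZ ?_
  have h := (fs p v).mul (Us p v)
  refine h.congr_deriv ?_
  simp

lemma vA : HasDerivAt (fun t => pd v (comp 3) (t, p.2))
    (-(pd v U p * f1 (comp 0 p) * p.2 2 + U p * (f2 (comp 0 p) * pd v (comp 0) p) * p.2 2
      + U p * f1 (comp 0 p) * v 2)) p.1 := by
  refine var (comp_smooth 3) dA ?_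
  have h := (((Us p v).mul (f1s p v)).mul (ks p v)).neg
  refine h.congr_deriv ?_
  simp only [zero_smul, add_zero, Pi.pow_apply, Pi.mul_apply]
  push_cast
  ring

lemma vB : HasDerivAt (fun t => pd v (comp 4) (t, p.2))
    (-(12 * pd v (comp 1) p * comp 3 p ^ 2 + 24 * comp 1 p * comp 3 p * pd v (comp 3) p)) p.1 := by
  refine var (comp_smooth 4) dB ?_
  have h := (((cs p v 1).const_mul 12).mul ((cs p v 3).pow 2)).neg
  refine h.congr_deriv ?_
  simp only [zero_smul, add_zero, Pi.pow_apply, Pi.mul_apply]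
  push_cast
  ring

end ode

lemma pd_zero (v : P) (i : Fin 6) (l : P) : pd v (comp i) (0, l) = ini v i := by
  apply pd_eq (comp_smooth i)
  have h : (fun s : ℝ => comp i ((0, l).1, (0, l).2 + s • v)) = fun s => ini (l + s • v) i := by
    ext s; exact comp_zero i _
  rw [h]
  fin_cases i
  · simpa [ini] using hasDerivAt_const (0:ℝ) (0:ℝ)
  · simpa [ini] using hasDerivAt_const (0:ℝ) (0:ℝ)
  · simpa [ini] using hasDerivAt_const (0:ℝ) (0:ℝ)
  · simpa [ini] using ((hasDerivAt_id (0:ℝ)).mul_const (v 0)).const_add (l 0)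
  · simpa [ini] using ((hasDerivAt_id (0:ℝ)).mul_const (v 1)).const_add (l 1)
  · simpa [ini] using ((hasDerivAt_id (0:ℝ)).mul_const (v 2)).const_add (l 2)

/-- scaling of the flow -/
lemma scale (c t : ℝ) (l : P) : comp 0 (t, c • l) = comp 0 (c * t, l) ∧
    comp 1 (t, c • l) = comp 1 (c * t, l) ∧ comp 2 (t, c • l) = comp 2 (c * t, l) := by
  set γ : ℝ → St := fun t => ![comp 0 (c * t, l), comp 1 (c * t, l), comp 2 (c * t, l),
    c * comp 3 (c * t, l), c * comp 4 (c * t, l), c * l 2] with hγ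
  have hm : ∀ t, HasDerivAt (fun t : ℝ => c * t) c t := fun t => by
    simpa using (hasDerivAt_id t).const_mul c
  have hd : ∀ t, HasDerivAt γ (F (γ t)) t := by
    intro t
    rw [hasDerivAt_pi]
    intro i
    have e0 := (dX (c * t, l)).comp t (hm t)
    have e1 := (dY (c * t, l)).comp t (hm t)
    have e2 := (dZ (c * t, l)).comp t (hm t)
    have e3 := ((dA (c * t, l)).comp t (hm t)).const_mul c
    have e4 := ((dB (c * t, l)).comp t (hm t)).const_mul c
    simp only [U] at e1 e2 e3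
    fin_cases i
    · refine e0.congr_deriv ?_
      simp [γ, F]; ring
    · refine e1.congr_deriv ?_
      simp [γ, F]; ring
    · refine e2.congr_deriv ?_
      simp [γ, F]; ring
    · refine e3.congr_deriv ?_
      simp [γ, F]; ring
    · refine e4.congr_deriv ?_
      simp [γ, F]; ring
    · simpa [γ, F] using hasDerivAt_const t (c * l 2)
  have h0 : γ 0 = ini (c • l) := by
    ext i
    fin_cases i <;> simp [γ, ini, comp_zero]
  have hu := Fl_unique hd
  rw [h0] at hu
  refine ⟨?_, ?_, ?_⟩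
  · have := congrFun (congrFun hu t) 0
    simpa [γ, comp] using this.symm
  · have := congrFun (congrFun hu t) 1
    simpa [γ, comp] using this.symm
  · have := congrFun (congrFun hu t) 2
    simpa [γ, comp] using this.symm

/-- the reflection -/
def refl (l : P) : P := ![l 0, -l 1, -l 2]

lemma reflection (t : ℝ) (l : P) : comp 0 (t, refl l) = comp 0 (t, l) ∧
    comp 1 (t, refl l) = - comp 1 (t, l) ∧ comp 2 (t, refl l) = - comp 2 (t, l) := by
  set γ : ℝ → St := fun t => ![comp 0 (t, l), -comp 1 (t, l), -comp 2 (t, l),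
    comp 3 (t, l), -comp 4 (t, l), - l 2] with hγ
  have hd : ∀ t, HasDerivAt γ (F (γ t)) t := by
    intro t
    rw [hasDerivAt_pi]
    intro i
    have e0 := (dX (t, l))
    have e1 := (dY (t, l)).neg
    have e2 := (dZ (t, l)).neg
    have e3 := (dA (t, l))
    have e4 := (dB (t, l)).neg
    simp only [U] at e1 e2 e3
    fin_cases i
    · refine e0.congr_deriv ?_
      simp [γ, F]
    · refine e1.congr_deriv ?_
      simp [γ, F]; ring
    · refine e2.congr_deriv ?_
      simp [γ, F]; ring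
    · refine e3.congr_deriv ?_
      simp [γ, F]; ring
    · refine e4.congr_deriv ?_
      simp [γ, F]
    · simpa [γ, F] using hasDerivAt_const t (- l 2)
  have h0 : γ 0 = ini (refl l) := by
    ext i
    fin_cases i <;> simp [γ, ini, comp_zero, refl]
  have hu := Fl_unique hd
  rw [h0] at hu
  refine ⟨?_, ?_, ?_⟩
  · have := congrFun (congrFun hu t) 0
    simpa [γ, comp] using this.symm
  · have := congrFun (congrFun hu t) 1
    simpa [γ, comp] using this.symm
  · have := congrFun (congrFun hu t) 2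
    simpa [γ, comp] using this.symm

end Pool.Agent.H70.SR
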