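import Mathlib
import Pool.Agent.H70.SR.Var

/-! The Jacobian determinant `D` of the exponential map, the minor `M`, and the monotonicity of
`D / M` along the rays. -/

open scoped ContDiff Topology
open Set

namespace Pool.Agent.H70.SR

/-- the basis of the space of covectors -/
def e (j : Fin 3) : P := Pi.single j 1

@[simp] lemma e00 : e 0 0 = 1 := rfl
@[simp] lemma e01 : e 0 1 = 0 := rfl
@[simp] lemma e02 : e 0 2 = 0 := rfl
@[simp] lemma e10 : e 1 0 = 0 := rfl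
@[simp] lemma e11 : e 1 1 = 1 := rfl
@[simp] lemma e12 : e 1 2 = 0 := rfl
@[simp] lemma e20 : e 2 0 = 0 := rfl
@[simp] lemma e21 : e 2 1 = 0 := rfl
@[simp] lemma e22 : e 2 2 = 1 := rfl

/-- partial derivatives of the components -/
noncomputable def J (i : Fin 6) (j : Fin 3) : ℝ × P → ℝ := pd (e j) (comp i)

lemma J_smooth (i : Fin 6) (j : Fin 3) : ContDiff ℝ ∞ (J i j) := pd_smooth (comp_smooth i) _

lemma J_zero (i : Fin 6) (j : Fin 3) (l : P) : J i j (0, l) = ini (e j) i := pd_zero _ _ _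

/-- the derivative of the velocity `u` -/
noncomputable def JU (j : Fin 3) (p : ℝ × P) : ℝ :=
  J 4 j p + f1 (comp 0 p) * J 0 j p * p.2 2 + f (comp 0 p) * e j 2

lemma JU_eq (j : Fin 3) (p : ℝ × P) : pd (e j) U p = JU j p := pdU p (e j)

section ode

variable (p : ℝ × P) (j : Fin 3)

lemma jX : HasDerivAt (fun t => J 0 j (t, p.2))
    (24 * comp 1 p * J 1 j p * comp 3 p + (1 + 12 * comp 1 p ^ 2) * J 3 j p) p.1 := vX p (e j)

lemma jY : HasDerivAt (fun t => J 1 j (t, p.2)) (JU j p) p.1 := by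
  rw [← JU_eq]; exact vY p (e j)

lemma jZ : HasDerivAt (fun t => J 2 j (t, p.2))
    (f1 (comp 0 p) * J 0 j p * U p + f (comp 0 p) * JU j p) p.1 := by
  rw [← JU_eq]; exact vZ p (e j)

lemma jA : HasDerivAt (fun t => J 3 j (t, p.2))
    (-(JU j p * f1 (comp 0 p) * p.2 2 + U p * (f2 (comp 0 p) * J 0 j p) * p.2 2
      + U p * f1 (comp 0 p) * e j 2)) p.1 := by
  rw [← JU_eq]; exact vA p (e j)

lemma jB : HasDerivAt (fun t => J 4 j (t, p.2))
    (-(12 * J 1 j p * comp 3 p ^ 2 + 24 * comp 1 p * comp 3 p * J 3 j p)) p.1 := vB p (e j)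

end ode

/-- the flow is symplectic: the image of the vertical space is Lagrangian -/
lemma lagrange (i j : Fin 3) (p : ℝ × P) :
    J 0 i p * J 3 j p - J 0 j p * J 3 i p + (J 1 i p * J 4 j p - J 1 j p * J 4 i p)
      + (J 2 i p * e j 2 - J 2 j p * e i 2) = 0 := by
  have hd : ∀ t, HasDerivAt (fun t => J 0 i (t, p.2) * J 3 j (t, p.2)
      - J 0 j (t, p.2) * J 3 i (t, p.2) + (J 1 i (t, p.2) * J 4 j (t, p.2)
      - J 1 j (t, p.2) * J 4 i (t, p.2)) + (J 2 i (t, p.2) * e j 2 - J 2 j (t, p.2) * e i 2)) 0 t := by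
    intro t
    have h := (((jX (t, p.2) i).mul (jA (t, p.2) j)).sub ((jX (t, p.2) j).mul (jA (t, p.2) i))).add
      (((jY (t, p.2) i).mul (jB (t, p.2) j)).sub ((jY (t, p.2) j).mul (jB (t, p.2) i))) |>.add
      (((jZ (t, p.2) i).mul_const (e j 2)).sub ((jZ (t, p.2) j).mul_const (e i 2)))
    refine h.congr_deriv ?_
    simp only [JU]
    ring
  have := is_const_of_deriv_eq_zero (fun t => (hd t).differentiableAt) (fun t => (hd t).deriv) p.1 0
  refine this.trans ?_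
  simp [J_zero, ini]

/-- the minor `∂(x, y)/∂(p_x, p_y)` -/
noncomputable def M (p : ℝ × P) : ℝ := J 0 0 p * J 1 1 p - J 0 1 p * J 1 0 p
noncomputable def c0 (p : ℝ × P) : ℝ := J 0 1 p * J 1 2 p - J 0 2 p * J 1 1 p
noncomputable def c1 (p : ℝ × P) : ℝ := J 0 2 p * J 1 0 p - J 0 0 p * J 1 2 p
/-- the Jacobian determinant -/
noncomputable def D (p : ℝ × P) : ℝ := J 2 0 p * c0 p + J 2 1 p * c1 p + J 2 2 p * M p
noncomputable def Q (p : ℝ × P) : ℝ := J 3 0 p * c0 p + J 3 1 p * c1 p + J 3 2 p * M p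
noncomputable def h (p : ℝ × P) : ℝ :=
  J 4 0 p * c0 p + J 4 1 p * c1 p + J 4 2 p * M p + f (comp 0 p) * M p

lemma M_smooth : ContDiff ℝ ∞ M := by
  have := J_smooth
  unfold M
  exact ((this 0 0).mul (this 1 1)).sub ((this 0 1).mul (this 1 0))
lemma c0_smooth : ContDiff ℝ ∞ c0 := by
  have := J_smooth
  unfold c0
  exact ((this 0 1).mul (this 1 2)).sub ((this 0 2).mul (this 1 1))
lemma c1_smooth : ContDiff ℝ ∞ c1 := by
  have := J_smooth
  unfold c1
  exact ((this 0 2).mul (this 1 0)).sub ((this 0 0).mul (this 1 2))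
lemma D_smooth : ContDiff ℝ ∞ D := by
  have := J_smooth
  unfold D
  exact (((this 2 0).mul c0_smooth).add ((this 2 1).mul c1_smooth)).add ((this 2 2).mul M_smooth)
lemma Q_smooth : ContDiff ℝ ∞ Q := by
  have := J_smooth
  unfold Q
  exact (((this 3 0).mul c0_smooth).add ((this 3 1).mul c1_smooth)).add ((this 3 2).mul M_smooth)
lemma h_smooth : ContDiff ℝ ∞ h := by
  have := J_smooth
  unfold h
  exact ((((this 4 0).mul c0_smooth).add ((this 4 1).mul c1_smooth)).add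
    ((this 4 2).mul M_smooth)).add ((contDiff_f.comp (comp_smooth 0)).mul M_smooth)

/-- The derivative of `D / M` along the trajectories: the key identity. -/
lemma key (p : ℝ × P) : ∃ D' M' : ℝ, HasDerivAt (fun t => D (t, p.2)) D' p.1 ∧
    HasDerivAt (fun t => M (t, p.2)) M' p.1 ∧
    D' * M p - D p * M' = (1 + 12 * comp 1 p ^ 2) * Q p ^ 2 + h p ^ 2 := by
  have hM := ((jX p 0).mul (jY p 1)).sub ((jX p 1).mul (jY p 0))
  have h0 := ((jX p 1).mul (jY p 2)).sub ((jX p 2).mul (jY p 1))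
  have h1 := ((jX p 2).mul (jY p 0)).sub ((jX p 0).mul (jY p 2))
  have hD := (((jZ p 0).mul h0).add ((jZ p 1).mul h1)).add ((jZ p 2).mul hM)
  refine ⟨_, _, hD, hM, ?_⟩
  have l01 := lagrange 0 1 p
  have l02 := lagrange 0 2 p
  have l12 := lagrange 1 2 p
  simp only [e02, e12, e22, mul_zero, mul_one, sub_zero, add_zero] at l01 l02 l12
  simp only [D, Q, h, M, c0, c1, JU, e02, e12, e22, mul_zero, mul_one, add_zero, Pi.sub_apply,
    Pi.mul_apply]
  generalize J 0 0 p = x0 at *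
  generalize J 0 1 p = x1 at *
  generalize J 0 2 p = x2 at *
  generalize J 1 0 p = y0 at *
  generalize J 1 1 p = y1 at *
  generalize J 1 2 p = y2 at *
  generalize J 2 0 p = z0 at *
  generalize J 2 1 p = z1 at *
  generalize J 2 2 p = z2 at *
  generalize J 3 0 p = a0 at *
  generalize J 3 1 p = a1 at *
  generalize J 3 2 p = a2 at *
  generalize J 4 0 p = b0 at *
  generalize J 4 1 p = b1 at *
  generalize J 4 2 p = b2 at *
  generalize comp 1 p = Y at *
  generalize comp 3 p = A at *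
  generalize f (comp 0 p) = ff at *
  generalize f1 (comp 0 p) = g at *
  generalize U p = u at *
  generalize p.2 2 = k at *
  linear_combination (-((x1 * y2 - x2 * y1) * ((24 * Y * y2 * A + (1 + 12 * Y ^ 2) * a2) * y0 + x2 * (b0 + g * x0 * k) - (24 * Y * y0 * A + (1 + 12 * Y ^ 2) * a0) * y2 - x0 * (b2 + g * x2 * k + ff)) - (x2 * y0 - x0 * y2) * ((24 * Y * y1 * A + (1 + 12 * Y ^ 2) * a1) * y2 + x1 * (b2 + g * x2 * k + ff) - (24 * Y * y2 * A + (1 + 12 * Y ^ 2) * a2) * y1 - x2 * (b1 + g * x1 * k)))) * l01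
    + (-((x1 * y2 - x2 * y1) * ((24 * Y * y0 * A + (1 + 12 * Y ^ 2) * a0) * y1 + x0 * (b1 + g * x1 * k) - (24 * Y * y1 * A + (1 + 12 * Y ^ 2) * a1) * y0 - x1 * (b0 + g * x0 * k)) - (x0 * y1 - x1 * y0) * ((24 * Y * y1 * A + (1 + 12 * Y ^ 2) * a1) * y2 + x1 * (b2 + g * x2 * k + ff) - (24 * Y * y2 * A + (1 + 12 * Y ^ 2) * a2) * y1 - x2 * (b1 + g * x1 * k)))) * l02
    + (-((x2 * y0 - x0 * y2) * ((24 * Y * y0 * A + (1 + 12 * Y ^ 2) * a0) * y1 + x0 * (b1 + g * x1 * k) - (24 * Y * y1 * A + (1 + 12 * Y ^ 2) * a1) * y0 - x1 * (b0 + g * x0 * k)) - (x0 * y1 - x1 * y0) * ((24 * Y * y2 * A + (1 + 12 * Y ^ 2) * a2) * y0 + x2 * (b0 + g * x0 * k) - (24 * Y * y0 * A + (1 + 12 * Y ^ 2) * a0) * y2 - x0 * (b2 + g * x2 * k + ff)))) * l12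

end Pool.Agent.H70.SR
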