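import Mathlib
import Pool.Agent.H70.SR.Mono

/-! The flow and its derivatives along the covectors `(1, α, 0)`. -/

open scoped ContDiff Topology
open Set

namespace Pool.Agent.H70.SR

lemma eq_of_deriv {g₁ g₂ g' : ℝ → ℝ} (h1 : ∀ t, HasDerivAt g₁ (g' t) t)
    (h2 : ∀ t, HasDerivAt g₂ (g' t) t) (h0 : g₁ 0 = g₂ 0) (t : ℝ) : g₁ t = g₂ t := by
  have hd : ∀ t, HasDerivAt (fun t => g₁ t - g₂ t) 0 t := fun t =>
    ((h1 t).sub (h2 t)).congr_deriv (sub_self _)
  have := is_const_of_deriv_eq_zero (fun t => (hd t).differentiableAt) (fun t => (hd t).deriv) t 0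
  linarith [this, h0]

lemma prim_deriv {g : ℝ → ℝ} (hg : Continuous g) (t : ℝ) :
    HasDerivAt (fun t => ∫ τ in (0:ℝ)..t, g τ) (g t) t :=
  intervalIntegral.integral_hasDerivAt_right (hg.intervalIntegrable 0 t)
    hg.stronglyMeasurable.stronglyMeasurableAtFilter hg.continuousAt

lemma osc {y v : ℝ → ℝ} (hy : ∀ t, HasDerivAt y (v t) t) (hv : ∀ t, HasDerivAt v (-12 * y t) t)
    (h0 : y 0 = 0) (h1 : v 0 = 0) (t : ℝ) : y t = 0 ∧ v t = 0 := by
  have hd : ∀ t, HasDerivAt (fun t => 12 * y t ^ 2 + v t ^ 2) 0 t := fun t => by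
    refine ((((hy t).pow 2).const_mul 12).add ((hv t).pow 2)).congr_deriv ?_
    push_cast; ring
  have := is_const_of_deriv_eq_zero (fun t => (hd t).differentiableAt) (fun t => (hd t).deriv) t 0
  simp only [h0, h1] at this
  have h2 : y t ^ 2 = 0 := by nlinarith [sq_nonneg (y t), sq_nonneg (v t)]
  have h3 : v t ^ 2 = 0 := by nlinarith [sq_nonneg (y t), sq_nonneg (v t)]
  exact ⟨by simpa using h2, by simpa using h3⟩

/-- frequency -/
noncomputable def om : ℝ := √12
lemma om_pos : 0 < om := Real.sqrt_pos.2 (by norm_num)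
lemma om_sq : om ^ 2 = 12 := Real.sq_sqrt (by norm_num)

noncomputable def s (t : ℝ) : ℝ := Real.sin (om * t) / om
noncomputable def s1 (t : ℝ) : ℝ := Real.cos (om * t)
noncomputable def chi (t : ℝ) : ℝ := t / 2 - s t * s1 t / 2

lemma s_deriv (t : ℝ) : HasDerivAt s (s1 t) t := by
  have h1 : HasDerivAt (fun t => om * t) om t := by simpa using (hasDerivAt_id t).const_mul om
  have h := (h1.sin).div_const om
  refine h.congr_deriv ?_
  have := om_pos.ne'
  simp only [s1]; field_simp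

lemma s1_deriv (t : ℝ) : HasDerivAt s1 (-12 * s t) t := by
  have h1 : HasDerivAt (fun t => om * t) om t := by simpa using (hasDerivAt_id t).const_mul om
  have h := h1.cos
  refine h.congr_deriv ?_
  have h2 := om_pos.ne'
  simp only [s]; field_simp
  rw [om_sq]; ring

lemma s_s1 (t : ℝ) : s1 t ^ 2 = 1 - 12 * s t ^ 2 := by
  have h := Real.sin_sq_add_cos_sq (om * t)
  have h2 := om_pos.ne'
  simp only [s, s1, div_pow, om_sq]
  linarith

@[simp] lemma s_zero : s 0 = 0 := by simp [s]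
@[simp] lemma s1_zero : s1 0 = 1 := by simp [s1]
@[simp] lemma chi_zero : chi 0 = 0 := by simp [chi]

lemma chi_deriv (t : ℝ) : HasDerivAt chi (12 * s t ^ 2) t := by
  have h := ((hasDerivAt_id t).div_const 2).sub (((s_deriv t).mul (s1_deriv t)).div_const 2)
  refine h.congr_deriv ?_
  have := s_s1 t
  linear_combination (-1/2) * this

lemma s_cont : Continuous s := continuous_iff_continuousAt.2 fun t => (s_deriv t).continuousAt
lemma s1_cont : Continuous s1 := continuous_iff_continuousAt.2 fun t => (s1_deriv t).continuousAt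
lemma chi_cont : Continuous chi := continuous_iff_continuousAt.2 fun t => (chi_deriv t).continuousAt

/-- the covectors `(1, α, 0)` -/
def sl (α : ℝ) : P := ![1, α, 0]

@[simp] lemma sl0 (α : ℝ) : sl α 0 = 1 := rfl
@[simp] lemma sl1 (α : ℝ) : sl α 1 = α := rfl
@[simp] lemma sl2 (α : ℝ) : sl α 2 = 0 := rfl

lemma sl_cont : Continuous sl := by
  refine continuous_pi fun i => ?_
  fin_cases i <;> simp [sl] <;> fun_prop

/-- the `x` coordinate along the slice -/
noncomputable def xx (α t : ℝ) : ℝ := t + α ^ 2 * chi t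

lemma xx_cont : Continuous (fun p : ℝ × ℝ => xx p.1 p.2) := by
  have := chi_cont
  unfold xx; fun_prop

lemma xx_deriv (α t : ℝ) : HasDerivAt (xx α) (1 + 12 * (α * s t) ^ 2) t := by
  have h := (hasDerivAt_id t).add ((chi_deriv t).const_mul (α ^ 2))
  refine h.congr_deriv ?_
  ring

lemma slice_flow (α t : ℝ) : comp 0 (t, sl α) = xx α t ∧ comp 1 (t, sl α) = α * s t ∧
    comp 3 (t, sl α) = 1 ∧ comp 4 (t, sl α) = α * s1 t := by
  have hc : Continuous (fun τ => f (xx α τ) * (α * s1 τ)) := by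
    have h1 := contDiff_f.continuous
    have h2 : Continuous (xx α) := xx_cont.comp (by fun_prop : Continuous fun t : ℝ => (α, t))
    exact (h1.comp h2).mul (continuous_const.mul s1_cont)
  set γ : ℝ → St := fun t => ![xx α t, α * s t, ∫ τ in (0:ℝ)..t, f (xx α τ) * (α * s1 τ), 1,
    α * s1 t, 0] with hγ
  have hd : ∀ t, HasDerivAt γ (F (γ t)) t := by
    intro t
    rw [hasDerivAt_pi]
    intro i
    fin_cases i
    · refine (xx_deriv α t).congr_deriv ?_
      simp [γ, F]
    · refine ((s_deriv t).const_mul α).congr_deriv ?_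
      simp [γ, F]
    · refine (prim_deriv hc t).congr_deriv ?_
      simp [γ, F]
    · refine (hasDerivAt_const t (1:ℝ)).congr_deriv ?_
      simp [γ, F]
    · refine ((s1_deriv t).const_mul α).congr_deriv ?_
      simp [γ, F]; ring
    · refine (hasDerivAt_const t (0:ℝ)).congr_deriv ?_
      simp [γ, F]
  have h0 : γ 0 = ini (sl α) := by
    ext i
    fin_cases i <;> simp [γ, ini, xx]
  have hu := Fl_unique hd
  rw [h0] at hu
  refine ⟨?_, ?_, ?_, ?_⟩
  · have := congrFun (congrFun hu t) 0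
    simpa [γ, comp] using this.symm
  · have := congrFun (congrFun hu t) 1
    simpa [γ, comp] using this.symm
  · have := congrFun (congrFun hu t) 3
    simpa [γ, comp] using this.symm
  · have := congrFun (congrFun hu t) 4
    simpa [γ, comp] using this.symm

lemma c0_sl (α t : ℝ) : comp 0 (t, sl α) = xx α t := (slice_flow α t).1
lemma c1_sl (α t : ℝ) : comp 1 (t, sl α) = α * s t := (slice_flow α t).2.1
lemma c3_sl (α t : ℝ) : comp 3 (t, sl α) = 1 := (slice_flow α t).2.2.1
lemma c4_sl (α t : ℝ) : comp 4 (t, sl α) = α * s1 t := (slice_flow α t).2.2.2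
lemma U_sl (α t : ℝ) : U (t, sl α) = α * s1 t := by simp [U, c4_sl]

/-- `∂/∂p_y` -/
lemma J31_sl (α t : ℝ) : J 3 1 (t, sl α) = 0 := by
  refine eq_of_deriv (g₁ := fun t => J 3 1 (t, sl α)) (g₂ := fun _ => 0) (g' := fun _ => 0)
    (fun t => ?_) (fun t => hasDerivAt_const _ _) ?_ t
  · refine (jA (t, sl α) 1).congr_deriv ?_
    simp
  · simp [J_zero, ini]

lemma J11_sl (α t : ℝ) : J 1 1 (t, sl α) = s t ∧ J 4 1 (t, sl α) = s1 t := by
  have h := osc (y := fun t => J 1 1 (t, sl α) - s t) (v := fun t => J 4 1 (t, sl α) - s1 t)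
    (fun t => ?_) (fun t => ?_) ?_ ?_ t
  · exact ⟨by linarith [h.1], by linarith [h.2]⟩
  · refine ((jY (t, sl α) 1).sub (s_deriv t)).congr_deriv ?_
    simp [JU]
  · refine ((jB (t, sl α) 1).sub (s1_deriv t)).congr_deriv ?_
    simp [J31_sl, c3_sl]; ring
  · simp [J_zero, ini]
  · simp [J_zero, ini]

lemma J01_sl (α t : ℝ) : J 0 1 (t, sl α) = 2 * α * chi t := by
  refine eq_of_deriv (g₁ := fun t => J 0 1 (t, sl α)) (g₂ := fun t => 2 * α * chi t)
    (g' := fun t => 2 * α * (12 * s t ^ 2)) (fun t => ?_)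
    (fun t => (chi_deriv t).const_mul _) ?_ t
  · refine (jX (t, sl α) 1).congr_deriv ?_
    simp [J31_sl, c3_sl, c1_sl, (J11_sl α t).1]; ring
  · simp [J_zero, ini]

/-- `- ∂p_x/∂p_z / α` along the slice -/
noncomputable def pp (α t : ℝ) : ℝ := ∫ τ in (0:ℝ)..t, f1 (xx α τ) * s1 τ

lemma f1xx_cont : Continuous (fun p : ℝ × ℝ => f1 (xx p.1 p.2)) :=
  contDiff_f1.continuous.comp xx_cont

lemma pp_cont : Continuous (fun p : ℝ × ℝ => pp p.1 p.2) := by
  unfold pp
  exact intervalIntegral.continuous_parametric_primitive_of_continuous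
    (f := fun α τ => f1 (xx α τ) * s1 τ) (f1xx_cont.mul (s1_cont.comp continuous_snd))

lemma pp_deriv (α t : ℝ) : HasDerivAt (pp α) (f1 (xx α t) * s1 t) t := by
  have hc : Continuous (fun τ => f1 (xx α τ) * s1 τ) :=
    (f1xx_cont.comp (by fun_prop : Continuous fun t : ℝ => (α, t))).mul s1_cont
  exact prim_deriv hc t

@[simp] lemma pp_zero (α : ℝ) : pp α 0 = 0 := by simp [pp]

lemma J32_sl (α t : ℝ) : J 3 2 (t, sl α) = -(α * pp α t) := by
  refine eq_of_deriv (g₁ := fun t => J 3 2 (t, sl α)) (g₂ := fun t => -(α * pp α t))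
    (g' := fun t => -(α * (f1 (xx α t) * s1 t))) (fun t => ?_)
    (fun t => ((pp_deriv α t).const_mul α).neg) ?_ t
  · refine (jA (t, sl α) 2).congr_deriv ?_
    simp [U_sl, c0_sl]; ring
  · simp [J_zero, ini]

/-- `∂y/∂p_z` along the slice -/
noncomputable def yy (α t : ℝ) : ℝ := J 1 2 (t, sl α)
/-- `∂u/∂p_z` along the slice -/
noncomputable def vv (α t : ℝ) : ℝ := JU 2 (t, sl α)

lemma yy_cont : Continuous (fun p : ℝ × ℝ => yy p.1 p.2) :=
  (J_smooth 1 2).continuous.comp (continuous_snd.prodMk (sl_cont.comp continuous_fst))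

@[simp] lemma yy_zero (α : ℝ) : yy α 0 = 0 := by simp [yy, J_zero, ini]
@[simp] lemma vv_zero (α : ℝ) : vv α 0 = 0 := by simp [vv, JU, J_zero, ini, c0_sl, xx, f]

lemma yy_deriv (α t : ℝ) : HasDerivAt (yy α) (vv α t) t := jY (t, sl α) 2

lemma vv_deriv (α t : ℝ) : HasDerivAt (vv α) (-12 * yy α t + 24 * α ^ 2 * s t * pp α t
    + f1 (xx α t) * (1 + 12 * (α * s t) ^ 2)) t := by
  have h1 := jB (t, sl α) 2
  have h2 := HasDerivAt.comp t (hasDerivAt_f (xx α t)) (xx_deriv α t)
  have h3 : vv α = fun t => J 4 2 (t, sl α) + f (xx α t) := by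
    ext t; simp [vv, JU, c0_sl]
  rw [h3]
  refine (h1.add h2).congr_deriv ?_
  simp only [c3_sl, c1_sl, J32_sl, yy]
  ring

noncomputable def wi (α τ : ℝ) : ℝ := 24 * s τ * yy α τ - (1 + 12 * (α * s τ) ^ 2) * pp α τ

/-- `∂x/∂p_z / α` along the slice -/
noncomputable def ww (α t : ℝ) : ℝ := ∫ τ in (0:ℝ)..t, wi α τ

lemma wi_cont : Continuous (fun p : ℝ × ℝ => wi p.1 p.2) := by
  have h1 := s_cont
  have h2 := yy_cont
  have h3 := pp_cont
  unfold wi
  fun_prop

lemma ww_cont : Continuous (fun p : ℝ × ℝ => ww p.1 p.2) :=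
  intervalIntegral.continuous_parametric_primitive_of_continuous (f := wi) wi_cont

lemma ww_deriv (α t : ℝ) : HasDerivAt (ww α) (wi α t) t :=
  prim_deriv (wi_cont.comp (by fun_prop : Continuous fun t : ℝ => (α, t))) t

@[simp] lemma ww_zero (α : ℝ) : ww α 0 = 0 := by simp [ww]

lemma J02_sl (α t : ℝ) : J 0 2 (t, sl α) = α * ww α t := by
  refine eq_of_deriv (g₁ := fun t => J 0 2 (t, sl α)) (g₂ := fun t => α * ww α t)
    (g' := fun t => α * wi α t) (fun t => ?_)
    (fun t => (ww_deriv α t).const_mul α) ?_ t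
  · refine (jX (t, sl α) 2).congr_deriv ?_
    simp only [c1_sl, c3_sl, J32_sl, yy, wi]; ring
  · simp [J_zero, ini]

/-- Euler's relation for the homogeneity of the flow -/
lemma euler (t : ℝ) (l : P) (i : Fin 3) {d : ℝ}
    (hd : HasDerivAt (fun t => comp (Fin.castLE (by norm_num) i) (t, l)) d t) :
    pd l (comp (Fin.castLE (by norm_num) i)) (t, l) = t * d := by
  have h1 := slice (comp_smooth (Fin.castLE (by norm_num) i)) l (t, l)
  have h2 : (fun s : ℝ => comp (Fin.castLE (by norm_num) i) ((t, l).1, (t, l).2 + s • l)) =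
      fun s : ℝ => comp (Fin.castLE (by norm_num) i) ((1 + s) * t, l) := by
    ext s
    have h3 := scale (1 + s) t l
    have h4 : (t, l).2 + s • l = (1 + s) • l := by rw [add_smul, one_smul]
    rw [h4]
    fin_cases i
    · exact h3.1
    · exact h3.2.1
    · exact h3.2.2
  rw [h2] at h1
  have h5 : HasDerivAt (fun s : ℝ => (1 + s) * t) t 0 := by
    simpa using ((hasDerivAt_id (0:ℝ)).const_add 1).mul_const t
  have h6 := HasDerivAt.comp (h₂ := fun t => comp (Fin.castLE (by norm_num) i) (t, l))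
    (h := fun s : ℝ => (1 + s) * t) 0 (by simpa using hd) h5
  have h7 := h1.unique h6
  rw [h7]; ring

lemma pd_sl (α t : ℝ) (i : Fin 6) : pd (sl α) (comp i) (t, sl α) =
    J i 0 (t, sl α) + α * J i 1 (t, sl α) := by
  have h : sl α = e 0 + α • e 1 := by
    ext j; fin_cases j <;> simp [sl]
  unfold J pd
  have h2 : ((0:ℝ), sl α) = (0, e 0) + α • ((0:ℝ), e 1) := by
    rw [h]; simp
  conv_lhs => rw [h2]
  rw [map_add, map_smul, smul_eq_mul]

lemma J00_sl (α t : ℝ) : J 0 0 (t, sl α) = t * (1 + 12 * (α * s t) ^ 2) - α * J 0 1 (t, sl α) := by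
  have h := euler t (sl α) 0 (dX (t, sl α))
  have h2 := pd_sl α t 0
  simp only [c1_sl, c3_sl, mul_one] at h
  linarith [h.symm.trans h2]

lemma J10_sl (α t : ℝ) : J 1 0 (t, sl α) = t * (α * s1 t) - α * J 1 1 (t, sl α) := by
  have h := euler t (sl α) 1 (dY (t, sl α))
  have h2 := pd_sl α t 1
  simp only [U_sl] at h
  linarith [h.symm.trans h2]

lemma J20_sl (α t : ℝ) : J 2 0 (t, sl α) = t * (f (xx α t) * (α * s1 t))
    - α * J 2 1 (t, sl α) := by
  have h := euler t (sl α) 2 (dZ (t, sl α))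
  have h2 := pd_sl α t 2
  simp only [U_sl, c0_sl] at h
  linarith [h.symm.trans h2]

/-- the reduced third row -/
noncomputable def ze (j : Fin 3) (α t : ℝ) : ℝ := J 2 j (t, sl α) - f (xx α t) * J 1 j (t, sl α)
/-- the normal displacement -/
noncomputable def nn (j : Fin 3) (α t : ℝ) : ℝ :=
  (1 + 12 * (α * s t) ^ 2) * J 1 j (t, sl α) - α * s1 t * J 0 j (t, sl α)

lemma ze_deriv (j : Fin 3) (α t : ℝ) : HasDerivAt (ze j α) (-(f1 (xx α t) * nn j α t)) t := by
  have h1 := jZ (t, sl α) j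
  have h2 := HasDerivAt.comp t (hasDerivAt_f (xx α t)) (xx_deriv α t)
  have h3 := h1.sub (h2.mul (jY (t, sl α) j))
  refine h3.congr_deriv ?_
  simp only [Function.comp, c0_sl, U_sl, nn]
  ring

lemma ze_zero (j : Fin 3) (α : ℝ) : ze j α 0 = 0 := by
  simp [ze, J_zero, ini]

lemma D_sl (α : ℝ) : D (1, sl α) = ze 2 α 1 * nn 1 α 1 - ze 1 α 1 * nn 2 α 1 := by
  simp only [D, M, c0, c1, ze, nn, J00_sl, J10_sl, J20_sl]
  ring

lemma M_sl (α t : ℝ) : M (t, sl α) = t * nn 1 α t := by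
  simp only [M, nn, J00_sl, J10_sl]
  ring

end Pool.Agent.H70.SR
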