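import Mathlib
import Pool.Agent.H70.SR.Slice

/-! The second order behaviour of the Jacobian determinant along the covectors `(1, α, 0)`. -/

open scoped ContDiff Topology
open Set

namespace Pool.Agent.H70.SR

lemma par_cont {g : ℝ → ℝ → ℝ} (hg : Continuous (fun p : ℝ × ℝ => g p.1 p.2)) :
    Continuous (fun α => ∫ τ in (0:ℝ)..1, g α τ) := by
  have h := intervalIntegral.continuous_parametric_primitive_of_continuous
      (μ := MeasureTheory.volume) (a₀ := (0:ℝ)) (f := g) hg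
  have h2 : Continuous fun α : ℝ => (α, (1:ℝ)) := by fun_prop
  exact h.comp h2

lemma cont1 {g : ℝ → ℝ → ℝ} (hg : Continuous (fun p : ℝ × ℝ => g p.1 p.2)) :
    Continuous (fun α => g α 1) := by
  have h2 : Continuous fun α : ℝ => (α, (1:ℝ)) := by fun_prop
  exact hg.comp h2

lemma prim_deriv' {g : ℝ → ℝ → ℝ} (hg : Continuous (fun p : ℝ × ℝ => g p.1 p.2)) (α t : ℝ) :
    HasDerivAt (fun t => ∫ τ in (0:ℝ)..t, g α τ) (g α t) t := by
  have h2 : Continuous fun t : ℝ => (α, t) := by fun_prop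
  exact prim_deriv (hg.comp h2) t

noncomputable def y0 (t : ℝ) : ℝ := t ^ 2 * (1 - t) ^ 2
noncomputable def y01 (t : ℝ) : ℝ := 2 * t - 6 * t ^ 2 + 4 * t ^ 3
noncomputable def y02 (t : ℝ) : ℝ := 2 - 12 * t + 12 * t ^ 2
noncomputable def zp (t : ℝ) : ℝ := 4 / 3 * t ^ 3 - 6 * t ^ 4 + 12 * t ^ 5 - 14 * t ^ 6
  + 52 / 5 * t ^ 7 - 24 / 5 * t ^ 8 + 16 / 15 * t ^ 9

lemma y0_deriv (t : ℝ) : HasDerivAt y0 (y01 t) t := by
  have h := (hasDerivAt_pow 2 t).mul (((hasDerivAt_id t).const_sub 1).pow 2)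
  refine h.congr_deriv ?_
  simp only [y01, Pi.pow_apply, id]; push_cast; ring

lemma y01_deriv (t : ℝ) : HasDerivAt y01 (y02 t) t := by
  have h := (((hasDerivAt_id t).const_mul 2).sub ((hasDerivAt_pow 2 t).const_mul 6)).add
    ((hasDerivAt_pow 3 t).const_mul 4)
  refine h.congr_deriv ?_
  simp only [y02]; push_cast; ring

lemma zp_deriv (t : ℝ) : HasDerivAt zp (f t * y01 t) t := by
  have h := ((((((hasDerivAt_pow 3 t).const_mul (4/3)).sub ((hasDerivAt_pow 4 t).const_mul 6)).add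
    ((hasDerivAt_pow 5 t).const_mul 12)).sub ((hasDerivAt_pow 6 t).const_mul 14)).add
    ((hasDerivAt_pow 7 t).const_mul (52/5))).sub ((hasDerivAt_pow 8 t).const_mul (24/5)) |>.add
    ((hasDerivAt_pow 9 t).const_mul (16/15))
  refine h.congr_deriv ?_
  simp only [f, y01]; push_cast; ring

lemma f1_eq (t : ℝ) : f1 t = y02 t + 12 * y0 t := by
  simp only [f1, y02, y0]; ring

@[simp] lemma y0_zero : y0 0 = 0 := by simp [y0]
@[simp] lemma y01_zero : y01 0 = 0 := by simp [y01]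
@[simp] lemma y0_one : y0 1 = 0 := by simp [y0]
@[simp] lemma y01_one : y01 1 = 0 := by norm_num [y01]
@[simp] lemma zp_zero : zp 0 = 0 := by simp [zp]
@[simp] lemma zp_one : zp 1 = 0 := by norm_num [zp]

/-- divided difference of `f1` -/
noncomputable def dd (t δ : ℝ) : ℝ := -12 + 24 * (2 * t + δ) - 24 * (3 * t ^ 2 + 3 * t * δ + δ ^ 2)
  + 12 * (4 * t ^ 3 + 6 * t ^ 2 * δ + 4 * t * δ ^ 2 + δ ^ 3)

lemma f1_dd (t δ : ℝ) : f1 (t + δ) = f1 t + δ * dd t δ := by simp only [f1, dd]; ring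
lemma dd_zero (t : ℝ) : dd t 0 = f2 t := by simp only [f2, dd]; ring

noncomputable def ph (α t : ℝ) : ℝ := chi t * dd t (α ^ 2 * chi t) + f1 (xx α t) * (12 * s t ^ 2)

lemma ph_eq (α t : ℝ) : f1 (xx α t) * (1 + 12 * (α * s t) ^ 2) = f1 t + α ^ 2 * ph α t := by
  simp only [ph]
  have h := f1_dd t (α ^ 2 * chi t)
  simp only [xx] at *
  linear_combination h

lemma ph_cont : Continuous (fun p : ℝ × ℝ => ph p.1 p.2) := by
  have h1 := s_cont
  have h2 := chi_cont
  have h3 := f1xx_cont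
  unfold ph dd
  fun_prop

/-- the integrand -/
noncomputable def th (α t : ℝ) : ℝ := 24 * y0 t * s t * pp α t + y0 t * ph α t
  + ph α t * yy α t + pp α t * wi α t

lemma y0_cont : Continuous y0 := by unfold y0; fun_prop
lemma y01_cont : Continuous y01 := by unfold y01; fun_prop

lemma th_cont : Continuous (fun p : ℝ × ℝ => th p.1 p.2) := by
  have h1 := s_cont
  have h2 := chi_cont
  have h3 := ph_cont
  have h4 := yy_cont
  have h5 := pp_cont
  have h6 := wi_cont
  have h7 := y0_cont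
  unfold th
  fun_prop

noncomputable def gg (α : ℝ) : ℝ := (∫ τ in (0:ℝ)..1, th α τ) - pp α 1 * ww α 1

lemma gg_cont : Continuous gg := by
  have h1 : Continuous (fun α => ∫ τ in (0:ℝ)..1, th α τ) := par_cont th_cont
  have h2 : Continuous (fun α => pp α 1) := cont1 pp_cont
  have h3 : Continuous (fun α => ww α 1) := cont1 ww_cont
  exact h1.sub (h2.mul h3)

lemma ze2_eq (α : ℝ) : ze 2 α 1 = -(α ^ 2 * gg α) := by
  have hth : ∀ t, HasDerivAt (fun t => ∫ τ in (0:ℝ)..t, th α τ) (th α t) t :=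
    prim_deriv' th_cont α
  have hd : ∀ t, HasDerivAt (fun t => ze 2 α t + (f t * y0 t - zp t)
      - (y0 t * vv α t - y01 t * yy α t) - α ^ 2 * (pp α t * ww α t)
      + α ^ 2 * ∫ τ in (0:ℝ)..t, th α τ) 0 t := by
    intro t
    have a1 := ze_deriv 2 α t
    have a2 := ((hasDerivAt_f t).mul (y0_deriv t)).sub (zp_deriv t)
    have a3 := ((y0_deriv t).mul (vv_deriv α t)).sub ((y01_deriv t).mul (yy_deriv α t))
    have a4 := ((pp_deriv α t).mul (ww_deriv α t)).const_mul (α ^ 2)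
    have a5 := (hth t).const_mul (α ^ 2)
    refine ((((a1.add a2).sub a3).sub a4).add a5).congr_deriv ?_
    have e1 := ph_eq α t
    have e2 := f1_eq t
    simp only [nn, J02_sl, th]
    have e3 : J 1 2 (t, sl α) = yy α t := rfl
    rw [e3]
    simp only [wi]
    linear_combination (-yy α t - y0 t) * e1 - yy α t * e2
  have := is_const_of_deriv_eq_zero (fun t => (hd t).differentiableAt) (fun t => (hd t).deriv) 1 0
  simp only [y0_one, y01_one, zp_one, y0_zero, y01_zero, zp_zero, ze_zero, yy_zero, vv_zero,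
    pp_zero, ww_zero, intervalIntegral.integral_same] at this
  simp only [gg]
  linarith

noncomputable def ki (α t : ℝ) : ℝ := chi t * dd t (α ^ 2 * chi t) * s t
  + f1 (xx α t) * (12 * s t ^ 3 - 2 * s1 t * chi t)
noncomputable def kap (α : ℝ) : ℝ := ∫ τ in (0:ℝ)..1, ki α τ

lemma ki_cont : Continuous (fun p : ℝ × ℝ => ki p.1 p.2) := by
  have h1 := s_cont
  have h1' := s1_cont
  have h2 := chi_cont
  have h3 := f1xx_cont
  unfold ki dd
  fun_prop

lemma kap_cont : Continuous kap := par_cont ki_cont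

lemma ze1_eq (α : ℝ) : ze 1 α 1 = -(α ^ 2 * kap α) := by
  have hki : ∀ t, HasDerivAt (fun t => ∫ τ in (0:ℝ)..t, ki α τ) (ki α t) t :=
    prim_deriv' ki_cont α
  have hd : ∀ t, HasDerivAt (fun t => ze 1 α t + (y01 t * s t - y0 t * s1 t)
      + α ^ 2 * ∫ τ in (0:ℝ)..t, ki α τ) 0 t := by
    intro t
    have a1 := ze_deriv 1 α t
    have a3 := ((y01_deriv t).mul (s_deriv t)).sub ((y0_deriv t).mul (s1_deriv t))
    have a5 := (hki t).const_mul (α ^ 2)
    refine ((a1.add a3).add a5).congr_deriv ?_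
    have e1 : f1 (xx α t) = f1 t + α ^ 2 * chi t * dd t (α ^ 2 * chi t) := f1_dd _ _
    have e2 := f1_eq t
    simp only [nn, J01_sl, (J11_sl α t).1, ki]
    linear_combination (-s t) * e1 - s t * e2
  have := is_const_of_deriv_eq_zero (fun t => (hd t).differentiableAt) (fun t => (hd t).deriv) 1 0
  simp only [y0_one, y01_one, y0_zero, y01_zero, ze_zero, intervalIntegral.integral_same] at this
  simp only [kap]
  linarith

/-! ### the values at `α = 0` -/

lemma yy0 (t : ℝ) : yy 0 t = y0 t ∧ vv 0 t = y01 t := by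
  have h := osc (y := fun t => yy 0 t - y0 t) (v := fun t => vv 0 t - y01 t)
    (fun t => (yy_deriv 0 t).sub (y0_deriv t)) (fun t => ?_) ?_ ?_ t
  · exact ⟨by linarith [h.1], by linarith [h.2]⟩
  · refine ((vv_deriv 0 t).sub (y01_deriv t)).congr_deriv ?_
    have e2 := f1_eq t
    simp only [xx]
    have e3 : t + 0 ^ 2 * chi t = t := by ring
    rw [e3]
    linear_combination e2
  · simp
  · simp

lemma pp0 (t : ℝ) : pp 0 t = y01 t * s1 t + 12 * y0 t * s t := by
  refine eq_of_deriv (g₁ := pp 0) (g₂ := fun t => y01 t * s1 t + 12 * y0 t * s t)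
    (g' := fun t => f1 (xx 0 t) * s1 t) (pp_deriv 0) (fun t => ?_) ?_ t
  · refine (((y01_deriv t).mul (s1_deriv t)).add
      (((y0_deriv t).const_mul 12).mul (s_deriv t))).congr_deriv ?_
    have e2 := f1_eq t
    simp only [xx]
    have e3 : t + 0 ^ 2 * chi t = t := by ring
    rw [e3]
    linear_combination (-s1 t) * e2
  · simp

/-- the simplified integrand -/
noncomputable def I1 (t : ℝ) : ℝ := 24 * s t ^ 2 * (y01 t ^ 2 + 36 * y0 t ^ 2)
  - (y01 t ^ 2 + 12 * y0 t ^ 2)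

lemma I1_cont : Continuous I1 := by
  have h1 := s_cont
  have h2 := y0_cont
  have h3 := y01_cont
  unfold I1
  fun_prop

lemma f1_f2 (t : ℝ) : HasDerivAt f1 (f2 t) t := hasDerivAt_f1 t

lemma gg0_eq : gg 0 = ∫ τ in (0:ℝ)..1, I1 τ := by
  have hth : ∀ t, HasDerivAt (fun t => ∫ τ in (0:ℝ)..t, th 0 τ) (th 0 t) t :=
    prim_deriv' th_cont 0
  have hI : ∀ t, HasDerivAt (fun t => ∫ τ in (0:ℝ)..t, I1 τ) (I1 t) t := prim_deriv I1_cont
  have hd : ∀ t, HasDerivAt (fun t => (∫ τ in (0:ℝ)..t, th 0 τ) - (∫ τ in (0:ℝ)..t, I1 τ)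
      - (2 * (y0 t * (chi t * f1 t)) - chi t * (y01 t ^ 2 + 12 * y0 t ^ 2)
        + 12 * (y0 t ^ 2 * (s t * s1 t)))) 0 t := by
    intro t
    have a1 := ((y0_deriv t).mul ((chi_deriv t).mul (f1_f2 t))).const_mul 2
    have a2 := (chi_deriv t).mul (((y01_deriv t).pow 2).add (((y0_deriv t).pow 2).const_mul 12))
    have a3 := (((y0_deriv t).pow 2).mul ((s_deriv t).mul (s1_deriv t))).const_mul 12
    refine ((((hth t).sub (hI t))).sub ((a1.sub a2).add a3)).congr_deriv ?_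
    have e2 := f1_eq t
    have e3 : t + 0 ^ 2 * chi t = t := by ring
    have e4 : (0:ℝ) ^ 2 * chi t = 0 := by ring
    have e5 := s_s1 t
    simp only [th, wi, ph, I1, pp0, (yy0 t).1, xx, e4, add_zero, dd_zero, Pi.add_apply, Pi.pow_apply,
      Pi.mul_apply]
    push_cast
    linear_combination (-2 * y01 t * chi t) * e2 + (-(12 * y0 t ^ 2) - y01 t ^ 2) * e5
  have := is_const_of_deriv_eq_zero (fun t => (hd t).differentiableAt) (fun t => (hd t).deriv) 1 0
  simp only [y0_one, y01_one, y0_zero, y01_zero, intervalIntegral.integral_same] at this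
  have h2 : pp 0 1 = 0 := by rw [pp0]; simp
  simp only [gg, h2]
  linarith

lemma s_ge (t : ℝ) (ht : 0 ≤ t) : t - 2 * t ^ 3 ≤ s t := by
  have hd : ∀ t, HasDerivAt (fun t => s t - t + 2 * t ^ 3) (s1 t - 1 + 6 * t ^ 2) t := by
    intro t
    refine (((s_deriv t).sub (hasDerivAt_id t)).add ((hasDerivAt_pow 3 t).const_mul 2)).congr_deriv
      ?_
    push_cast; ring
  have hm : Monotone (fun t => s t - t + 2 * t ^ 3) := by
    refine monotone_of_deriv_nonneg (fun t => (hd t).differentiableAt) fun t => ?_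
    rw [(hd t).deriv]
    have h1 := Real.one_sub_sq_div_two_le_cos (x := om * t)
    have h2 : (om * t) ^ 2 = 12 * t ^ 2 := by rw [mul_pow, om_sq]
    simp only [s1]
    rw [h2] at h1
    linarith
  have := hm ht
  simp only [s_zero] at this
  linarith

lemma s_sq_ge (t : ℝ) (h0 : 0 ≤ t) (h1 : t ≤ 1 / 2) : t ^ 2 - 4 * t ^ 4 ≤ s t ^ 2 := by
  have h := s_ge t h0
  have h2 : 0 ≤ t - 2 * t ^ 3 := by nlinarith [mul_nonneg h0 h0, mul_nonneg h0 (sub_nonneg.2 h1)]
  have h3 : (t - 2 * t ^ 3) ^ 2 ≤ s t ^ 2 := by gcongr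
  nlinarith [sq_nonneg (t ^ 3)]

noncomputable def P1 (t : ℝ) : ℝ := (-4/3) * t ^ 3 + (6) * t ^ 4 + (32/5) * t ^ 5 + (-80) * t ^ 6
  + (1640/7) * t ^ 7 + (-282) * t ^ 8 + (-964/3) * t ^ 9 + (7488/5) * t ^ 10
  + (-21408/11) * t ^ 11 + (1152) * t ^ 12 + (-3456/13) * t ^ 13
noncomputable def P2 (t : ℝ) : ℝ := (-4/3) * t ^ 3 + (6) * t ^ 4 + (-64/5) * t ^ 5 + (16) * t ^ 6
  + (-88/7) * t ^ 7 + (6) * t ^ 8 + (-4/3) * t ^ 9

noncomputable def L1 (t : ℝ) : ℝ := 24 * (t ^ 2 - 4 * t ^ 4) * (y01 t ^ 2 + 36 * y0 t ^ 2)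
  - (y01 t ^ 2 + 12 * y0 t ^ 2)
noncomputable def L2 (t : ℝ) : ℝ := - (y01 t ^ 2 + 12 * y0 t ^ 2)

lemma P1_deriv (t : ℝ) : HasDerivAt P1 (L1 t) t := by
  have h := (((((((((((hasDerivAt_pow 3 t).const_mul (-4/3)).add
    ((hasDerivAt_pow 4 t).const_mul 6)).add ((hasDerivAt_pow 5 t).const_mul (32/5))).add
    ((hasDerivAt_pow 6 t).const_mul (-80))).add ((hasDerivAt_pow 7 t).const_mul (1640/7))).add
    ((hasDerivAt_pow 8 t).const_mul (-282))).add ((hasDerivAt_pow 9 t).const_mul (-964/3))).add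
    ((hasDerivAt_pow 10 t).const_mul (7488/5))).add
    ((hasDerivAt_pow 11 t).const_mul (-21408/11))).add ((hasDerivAt_pow 12 t).const_mul 1152)).add
    ((hasDerivAt_pow 13 t).const_mul (-3456/13))
  refine h.congr_deriv ?_
  simp only [L1, y01, y0]; push_cast; ring

lemma P2_deriv (t : ℝ) : HasDerivAt P2 (L2 t) t := by
  have h := (((((((hasDerivAt_pow 3 t).const_mul (-4/3)).add
    ((hasDerivAt_pow 4 t).const_mul 6)).add ((hasDerivAt_pow 5 t).const_mul (-64/5))).add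
    ((hasDerivAt_pow 6 t).const_mul (16))).add ((hasDerivAt_pow 7 t).const_mul (-88/7))).add
    ((hasDerivAt_pow 8 t).const_mul (6))).add ((hasDerivAt_pow 9 t).const_mul (-4/3))
  refine h.congr_deriv ?_
  simp only [L2, y01, y0]; push_cast; ring

lemma L1_cont : Continuous L1 := by
  have h2 := y0_cont
  have h3 := y01_cont
  unfold L1; fun_prop
lemma L2_cont : Continuous L2 := by
  have h2 := y0_cont
  have h3 := y01_cont
  unfold L2; fun_prop

lemma gg0_pos : 0 < gg 0 := by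
  rw [gg0_eq]
  have hi : ∀ a b : ℝ, IntervalIntegrable I1 MeasureTheory.volume a b :=
    fun a b => I1_cont.intervalIntegrable a b
  rw [← intervalIntegral.integral_add_adjacent_intervals (hi 0 (1/2)) (hi (1/2) 1)]
  have h1 : ∫ τ in (0:ℝ)..(1/2), L1 τ ≤ ∫ τ in (0:ℝ)..(1/2), I1 τ := by
    refine intervalIntegral.integral_mono_on (by norm_num) (L1_cont.intervalIntegrable _ _)
      (hi _ _) fun t ht => ?_
    have h := s_sq_ge t ht.1 ht.2
    have h2 : 0 ≤ y01 t ^ 2 + 36 * y0 t ^ 2 := by positivity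
    simp only [L1, I1]
    nlinarith [mul_le_mul_of_nonneg_right h h2]
  have h2 : ∫ τ in (1/2:ℝ)..1, L2 τ ≤ ∫ τ in (1/2:ℝ)..1, I1 τ := by
    refine intervalIntegral.integral_mono_on (by norm_num) (L2_cont.intervalIntegrable _ _)
      (hi _ _) fun t ht => ?_
    have h2 : 0 ≤ 24 * s t ^ 2 * (y01 t ^ 2 + 36 * y0 t ^ 2) := by positivity
    simp only [L2, I1]
    linarith
  have h3 : ∫ τ in (0:ℝ)..(1/2), L1 τ = P1 (1/2) - P1 0 :=
    intervalIntegral.integral_eq_sub_of_hasDerivAt (fun t _ => P1_deriv t)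
      (L1_cont.intervalIntegrable _ _)
  have h4 : ∫ τ in (1/2:ℝ)..1, L2 τ = P2 1 - P2 (1/2) :=
    intervalIntegral.integral_eq_sub_of_hasDerivAt (fun t _ => P2_deriv t)
      (L2_cont.intervalIntegrable _ _)
  have h5 : 0 < (P1 (1/2) - P1 0) + (P2 1 - P2 (1/2)) := by norm_num [P1, P2]
  linarith

lemma s_one_neg : s 1 < 0 := by
  have h1 : Real.pi < om := by
    have h := Real.pi_lt_d2
    unfold om
    rw [Real.lt_sqrt (by positivity)]
    nlinarith [Real.pi_pos]
  have h2 : om < 2 * Real.pi := by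
    have h := Real.pi_gt_three
    unfold om
    rw [Real.sqrt_lt' (by positivity)]
    nlinarith
  have h3 : 0 < Real.sin (om - Real.pi) := Real.sin_pos_of_pos_of_lt_pi (by linarith) (by linarith)
  rw [Real.sin_sub_pi] at h3
  have h4 := om_pos
  simp only [s, mul_one]
  exact div_neg_of_neg_of_pos (by linarith) h4

/-- the second order coefficient -/
noncomputable def LL (α : ℝ) : ℝ := gg α * nn 1 α 1 - kap α * nn 2 α 1

lemma nn_cont (j : Fin 3) : Continuous (fun α => nn j α 1) := by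
  have h1 : Continuous (fun α => J 1 j (1, sl α)) :=
    (J_smooth 1 j).continuous.comp (continuous_const.prodMk sl_cont)
  have h2 : Continuous (fun α => J 0 j (1, sl α)) :=
    (J_smooth 0 j).continuous.comp (continuous_const.prodMk sl_cont)
  unfold nn
  fun_prop

lemma LL_cont : Continuous LL := (gg_cont.mul (nn_cont 1)).sub (kap_cont.mul (nn_cont 2))

lemma LL_zero : LL 0 < 0 := by
  have h1 : nn 1 0 1 = s 1 := by simp [nn, (J11_sl 0 1).1]
  have h2 : nn 2 0 1 = 0 := by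
    have : J 1 2 (1, sl 0) = yy 0 1 := rfl
    simp [nn, this, (yy0 1).1]
  simp only [LL, h1, h2, mul_zero, sub_zero]
  exact mul_neg_of_pos_of_neg gg0_pos s_one_neg

lemma D_sl' (α : ℝ) : D (1, sl α) = -(α ^ 2 * LL α) := by
  rw [D_sl, ze1_eq, ze2_eq, LL]; ring

end Pool.Agent.H70.SR
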