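import Mathlib
import Pool.Agent.H70.SR.Limit

/-! Zeros of the Jacobian determinant near the covector `(1, 0, 0)`. -/

open scoped ContDiff Topology
open Set Filter

namespace Pool.Agent.H70.SR

/-- the reference covector -/
noncomputable abbrev l0 : P := sl 0

lemma xx0 (t : ℝ) : xx 0 t = t := by simp [xx]

lemma J01_0 (t : ℝ) : J 0 1 (t, l0) = 0 := by rw [J01_sl]; ring
lemma J02_0 (t : ℝ) : J 0 2 (t, l0) = 0 := by rw [J02_sl]; ring
lemma J00_0 (t : ℝ) : J 0 0 (t, l0) = t := by rw [J00_sl, J01_0]; ring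
lemma J10_0 (t : ℝ) : J 1 0 (t, l0) = 0 := by rw [J10_sl]; ring
lemma J12_0 (t : ℝ) : J 1 2 (t, l0) = y0 t := (yy0 t).1
lemma J42_0 (t : ℝ) : J 4 2 (t, l0) = y01 t - f t := by
  have h := (yy0 t).2
  simp only [vv, JU, c0_sl, sl2, e22, xx0] at h
  linarith

lemma c0_0 (t : ℝ) : c0 (t, l0) = 0 := by simp [c0, J01_0, J02_0]
lemma c1_0 (t : ℝ) : c1 (t, l0) = -(t * y0 t) := by simp [c1, J02_0, J00_0, J12_0]
lemma M_0 (t : ℝ) : M (t, l0) = t * s t := by simp [M, J00_0, J01_0, (J11_sl 0 t).1]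
lemma Q_0 (t : ℝ) : Q (t, l0) = 0 := by
  simp [Q, c0_0, J31_sl, J32_sl]
lemma h_0 (t : ℝ) : h (t, l0) = t * (s t * y01 t - s1 t * y0 t) := by
  simp only [h, c0_0, c1_0, M_0, (J11_sl 0 t).2, J42_0, c0_sl, xx0]
  ring
lemma D_0 : D (1, l0) = 0 := by rw [D_sl']; ring

lemma h_deriv : HasDerivAt (fun t => h (t, l0)) (2 * s 1) 1 := by
  have e1 : (fun t => h (t, l0)) = fun t => t * (s t * y01 t - s1 t * y0 t) := funext h_0
  rw [e1]
  have a := (hasDerivAt_id (1:ℝ)).mul (((s_deriv 1).mul (y01_deriv 1)).sub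
    ((s1_deriv 1).mul (y0_deriv 1)))
  refine a.congr_deriv ?_
  simp [y02]
  norm_num
  ring

/-- the derivative of `h` in time -/
noncomputable def ht (p : ℝ × P) : ℝ := fderiv ℝ h p (1, 0)

lemma ht_cont : Continuous ht :=
  ((h_smooth.fderiv_right (m := ∞) (by simp)).clm_apply contDiff_const).continuous

lemma ht_0 : ht (1, l0) = 2 * s 1 := (time_deriv h_smooth (1, l0)).unique h_deriv

lemma h_time (p : ℝ × P) : HasDerivAt (fun t => h (t, p.2)) (ht p) p.1 := time_deriv h_smooth p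

lemma exists_nhd : ∃ ε : ℝ, 0 < ε ∧ ε < 1 ∧ ∀ (t : ℝ) (l : P), |t - 1| < ε → dist l l0 < ε →
    M (t, l) ≠ 0 ∧ ht (t, l) ≠ 0 := by
  have h1 : ∀ᶠ p in 𝓝 ((1:ℝ), l0), M p ≠ 0 := by
    refine M_smooth.continuous.continuousAt.eventually_ne ?_
    rw [M_0, one_mul]; exact s_one_neg.ne
  have h2 : ∀ᶠ p in 𝓝 ((1:ℝ), l0), ht p ≠ 0 := by
    refine ht_cont.continuousAt.eventually_ne ?_
    rw [ht_0]
    have := s_one_neg
    intro h; linarith
  obtain ⟨ε, hε, h3⟩ := Metric.eventually_nhds_iff.1 (h1.and h2)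
  refine ⟨min ε (1/2), by positivity, by
    have := min_le_right ε (1/2); linarith, fun t l ht hl => ?_⟩
  refine h3 ?_
  rw [Prod.dist_eq]
  exact max_lt (lt_of_lt_of_le ht (min_le_left _ _)) (lt_of_lt_of_le hl (min_le_left _ _))

/-- the quotient -/
noncomputable def rho (p : ℝ × P) : ℝ := D p / M p

noncomputable def rho' (p : ℝ × P) : ℝ := ((1 + 12 * comp 1 p ^ 2) * Q p ^ 2 + h p ^ 2) / M p ^ 2

lemma rho_deriv (p : ℝ × P) (hM : M p ≠ 0) :
    HasDerivAt (fun t => rho (t, p.2)) (rho' p) p.1 := by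
  obtain ⟨D', M', hD, hM', he⟩ := key p
  have h := hD.div hM' hM
  refine h.congr_deriv ?_
  rw [rho', ← he]

section nhd

variable {ε : ℝ} (hN : ∀ (t : ℝ) (l : P), |t - 1| < ε → dist l l0 < ε →
    M (t, l) ≠ 0 ∧ ht (t, l) ≠ 0)
include hN

lemma rho_strict {l : P} (hl : dist l l0 < ε) :
    StrictMonoOn (fun t => rho (t, l)) (Ioo (1 - ε) (1 + ε)) := by
  have habs : ∀ t ∈ Ioo (1 - ε) (1 + ε), |t - 1| < ε := fun t ht =>
    abs_lt.2 ⟨by linarith [ht.1], by linarith [ht.2]⟩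
  have hd : ∀ t ∈ Ioo (1 - ε) (1 + ε), HasDerivAt (fun t => rho (t, l)) (rho' (t, l)) t :=
    fun t ht => rho_deriv (t, l) (hN t l (habs t ht) hl).1
  have hnn : ∀ t, 0 ≤ rho' (t, l) := fun t => by unfold rho'; positivity
  have hmono : MonotoneOn (fun t => rho (t, l)) (Ioo (1 - ε) (1 + ε)) := by
    refine monotoneOn_of_deriv_nonneg (convex_Ioo _ _)
      (fun t ht => (hd t ht).continuousAt.continuousWithinAt) (fun t ht => ?_) (fun t ht => ?_)
    · rw [interior_Ioo] at ht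
      exact (hd t ht).differentiableAt.differentiableWithinAt
    · rw [interior_Ioo] at ht
      rw [(hd t ht).deriv]; exact hnn t
  intro a ha b hb hab
  refine lt_of_le_of_ne (hmono ha hb hab.le) fun heq => ?_
  simp only at heq
  have hsub : ∀ t ∈ Icc a b, t ∈ Ioo (1 - ε) (1 + ε) := fun t ht =>
    ⟨lt_of_lt_of_le ha.1 ht.1, lt_of_le_of_lt ht.2 hb.2⟩
  have hconst : ∀ t ∈ Icc a b, rho (t, l) = rho (a, l) := by
    intro t ht
    have h1 := hmono ha (hsub t ht) ht.1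
    have h2 := hmono (hsub t ht) hb ht.2
    simp only at h1 h2
    linarith
  have hz : ∀ t ∈ Ioo a b, h (t, l) = 0 := by
    intro t ht
    have h1 := hd t (hsub t (Ioo_subset_Icc_self ht))
    have h2 : (fun t => rho (t, l)) =ᶠ[𝓝 t] fun _ => rho (a, l) := by
      filter_upwards [Icc_mem_nhds ht.1 ht.2] with y hy
      exact hconst y hy
    have h3 := (h1.congr_of_eventuallyEq h2.symm).unique (hasDerivAt_const t _)
    have hM := (hN t l (habs t (hsub t (Ioo_subset_Icc_self ht))) hl).1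
    unfold rho' at h3
    rw [div_eq_zero_iff] at h3
    rcases h3 with h3 | h3
    · have h4 : 0 ≤ (1 + 12 * comp 1 (t, l) ^ 2) * Q (t, l) ^ 2 := by positivity
      have h5 : h (t, l) ^ 2 = 0 := by nlinarith [sq_nonneg (h (t, l))]
      simpa using h5
    · exact absurd (by simpa using h3) hM
  obtain ⟨m, hm1, hm2⟩ := exists_between hab
  have h1 := h_time (m, l)
  have h2 : (fun t => h (t, l)) =ᶠ[𝓝 m] fun _ => 0 := by
    filter_upwards [Ioo_mem_nhds hm1 hm2] with y hy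
    exact hz y hy
  have h3 := (h1.congr_of_eventuallyEq h2.symm).unique (hasDerivAt_const m _)
  exact (hN m l (habs m (hsub m ⟨hm1.le, hm2.le⟩)) hl).2 h3

lemma rho_zero_iff {t : ℝ} {l : P} (ht : |t - 1| < ε) (hl : dist l l0 < ε) :
    rho (t, l) = 0 ↔ D (t, l) = 0 := by
  have hM := (hN t l ht hl).1
  unfold rho
  rw [div_eq_zero_iff]
  exact or_iff_left hM

/-- at most one zero on each ray -/
lemma unique_zero {l : P} (hl : dist l l0 < ε) {a b : ℝ} (ha : |a - 1| < ε) (hb : |b - 1| < ε)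
    (hDa : D (a, l) = 0) (hDb : D (b, l) = 0) : a = b := by
  have h1 := (rho_zero_iff hN ha hl).2 hDa
  have h2 := (rho_zero_iff hN hb hl).2 hDb
  have hm : ∀ t, |t - 1| < ε → t ∈ Ioo (1 - ε) (1 + ε) := fun t ht =>
    ⟨by linarith [(abs_lt.1 ht).1], by linarith [(abs_lt.1 ht).2]⟩
  exact (rho_strict hN hl).injOn (hm a ha) (hm b hb) (by simp only [h1, h2])

omit hN in
lemma rho_ref : rho (1, l0) = 0 := by simp [rho, D_0]

omit hN in
lemma rho_cont {p : ℝ × P} (hM : M p ≠ 0) : ContinuousAt rho p :=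
  D_smooth.continuous.continuousAt.div M_smooth.continuous.continuousAt hM

/-- zeros on the nearby rays -/
lemma exists_zero (hε : 0 < ε) {δ : ℝ} (hδ : 0 < δ) : ∀ᶠ α : ℝ in 𝓝 0, ∃ c : ℝ, |c - 1| < δ ∧
    D (c, sl α) = 0 := by
  wlog hδε : δ < ε generalizing δ
  · have := this (δ := ε / 2) (by positivity) (by linarith)
    filter_upwards [this] with α ⟨c, hc, h⟩
    exact ⟨c, by linarith, h⟩
  have h0 : dist l0 l0 < ε := by simpa using hε
  have hst := rho_strict hN h0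
  have hm1 : (1:ℝ) ∈ Ioo (1 - ε) (1 + ε) := ⟨by linarith, by linarith⟩
  have hma : 1 - δ/2 ∈ Ioo (1 - ε) (1 + ε) := ⟨by linarith, by linarith⟩
  have hmb : 1 + δ/2 ∈ Ioo (1 - ε) (1 + ε) := ⟨by linarith, by linarith⟩
  have ha : rho (1 - δ/2, l0) < 0 := by
    have := hst hma hm1 (by linarith)
    simpa only [rho_ref] using this
  have hb : 0 < rho (1 + δ/2, l0) := by
    have := hst hm1 hmb (by linarith)
    simpa only [rho_ref] using this
  have haM : M (1 - δ/2, l0) ≠ 0 := (hN _ _ (by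
    rw [abs_lt]; constructor <;> linarith) h0).1
  have hbM : M (1 + δ/2, l0) ≠ 0 := (hN _ _ (by
    rw [abs_lt]; constructor <;> linarith) h0).1
  have ca : ContinuousAt (fun α => rho (1 - δ/2, sl α)) 0 :=
    ContinuousAt.comp (g := rho) (f := fun α => (1 - δ/2, sl α)) (rho_cont haM)
      (continuousAt_const.prodMk sl_cont.continuousAt)
  have cb : ContinuousAt (fun α => rho (1 + δ/2, sl α)) 0 :=
    ContinuousAt.comp (g := rho) (f := fun α => (1 + δ/2, sl α)) (rho_cont hbM)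
      (continuousAt_const.prodMk sl_cont.continuousAt)
  have hsd : ∀ᶠ α : ℝ in 𝓝 0, dist (sl α) l0 < ε := by
    have := sl_cont.continuousAt (x := 0)
    exact Metric.tendsto_nhds.1 this ε hε
  filter_upwards [ca.eventually_lt_const ha, cb.eventually_const_lt hb, hsd] with α h1 h2 h3
  have hco : ContinuousOn (fun t => rho (t, sl α)) (Icc (1 - δ/2) (1 + δ/2)) := by
    intro t ht
    have hM := (hN t (sl α) (by rw [abs_lt]; constructor <;> linarith [ht.1, ht.2]) h3).1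
    exact (rho_deriv (t, sl α) hM).continuousAt.continuousWithinAt
  obtain ⟨c, hc, hc0⟩ := intermediate_value_Icc (by linarith) hco ⟨h1.le, h2.le⟩
  have hc1 : |c - 1| < δ := by rw [abs_lt]; constructor <;> linarith [hc.1, hc.2]
  exact ⟨c, hc1, (rho_zero_iff hN (by linarith) h3).1 hc0⟩

end nhd

lemma norm_sub_l0 (t α : ℝ) : ‖((t, sl α) : ℝ × P) - (1, l0)‖ = max |t - 1| |α| := by
  rw [Prod.mk_sub_mk, Prod.norm_mk, Real.norm_eq_abs]
  congr 1
  have h1 : sl α - l0 = ![0, α, 0] := by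
    ext i; fin_cases i <;> simp [sl]
  rw [h1]
  apply le_antisymm
  · rw [pi_norm_le_iff_of_nonneg (abs_nonneg _)]
    intro i; fin_cases i <;> simp
  · have := norm_le_pi_norm (![0, α, 0] : P) 1
    simpa using this

lemma bigO_zero {G : ℝ × P → ℝ} (hG : ContDiff ℝ ∞ G) (h0 : G (1, l0) = 0) :
    ∃ C : ℝ, 0 < C ∧ ∀ᶠ p in 𝓝 ((1:ℝ), l0), |G p| ≤ C * ‖p - (1, l0)‖ := by
  have h1 : DifferentiableAt ℝ G (1, l0) := hG.differentiable (by simp) _
  obtain ⟨C, hC, h2⟩ := h1.isBigO_sub.exists_pos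
  refine ⟨C, hC, ?_⟩
  filter_upwards [h2.bound] with p hp
  simpa [h0] using hp

/-- near `(1, 0, 0)` the zeros on the rays of `(1, α, 0)` are far away, compared with `α` -/
lemma far (N : ℝ) (hN1 : 1 ≤ N) : ∀ᶠ α : ℝ in 𝓝[≠] 0, ∀ c : ℝ, |c - 1| ≤ N * |α| →
    D (c, sl α) ≠ 0 := by
  obtain ⟨CQ, hCQ, hQ⟩ := bigO_zero Q_smooth (Q_0 1)
  have hh0 : h (1, l0) = 0 := by rw [h_0]; simp
  obtain ⟨Ch, hCh, hh⟩ := bigO_zero h_smooth hh0
  have hM0 : M (1, l0) = s 1 := by rw [M_0, one_mul]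
  have hMn : ∀ᶠ p in 𝓝 ((1:ℝ), l0), M p < s 1 / 2 := by
    refine M_smooth.continuous.continuousAt.eventually_lt_const ?_
    rw [hM0]; linarith [s_one_neg]
  have hY : ∀ᶠ p in 𝓝 ((1:ℝ), l0), 12 * comp 1 p ^ 2 < 1 := by
    have hc : Continuous (fun p => 12 * comp 1 p ^ 2) := by
      have := (comp_smooth 1).continuous
      fun_prop
    refine hc.continuousAt.eventually_lt_const ?_
    simp only [c1_sl]; norm_num
  set K : ℝ := (2 * CQ ^ 2 + Ch ^ 2) / (s 1 / 2) ^ 2 with hK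
  have hs := s_one_neg
  have hpos : 0 < (s 1 / 2) ^ 2 := by
    have : s 1 / 2 ≠ 0 := by
      intro h; linarith
    positivity
  have hK0 : 0 < K := div_pos (by positivity) hpos
  have hev : ∀ᶠ p in 𝓝 ((1:ℝ), l0), M p ≠ 0 ∧ |rho' p| ≤ K * ‖p - (1, l0)‖ ^ 2 := by
    filter_upwards [hQ, hh, hMn, hY] with p h1 h2 h3 h4
    have hMne : M p ≠ 0 := by intro h; rw [h] at h3; linarith
    refine ⟨hMne, ?_⟩
    have hn : 0 ≤ rho' p := by unfold rho'; positivity
    rw [abs_of_nonneg hn, rho', hK, div_mul_eq_mul_div]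
    have hMsq : (s 1 / 2) ^ 2 ≤ M p ^ 2 := by nlinarith
    have hQ2 : Q p ^ 2 ≤ CQ ^ 2 * ‖p - (1, l0)‖ ^ 2 := by
      rw [← mul_pow, ← sq_abs]; gcongr
    have hh2 : h p ^ 2 ≤ Ch ^ 2 * ‖p - (1, l0)‖ ^ 2 := by
      rw [← mul_pow, ← sq_abs]; gcongr
    refine div_le_div₀ (by positivity) ?_ hpos hMsq
    have : (1 + 12 * comp 1 p ^ 2) * Q p ^ 2 ≤ 2 * (CQ ^ 2 * ‖p - (1, l0)‖ ^ 2) :=
      mul_le_mul (by linarith) hQ2 (sq_nonneg _) (by norm_num)
    linarith
  obtain ⟨ε, hε, hball⟩ := Metric.eventually_nhds_iff.1 hev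
  -- the value at `c = 1`
  have hratio : ContinuousAt (fun α => LL α / M (1, sl α)) 0 := by
    refine LL_cont.continuousAt.div ?_ ?_
    · exact (M_smooth.continuous.comp (continuous_const.prodMk sl_cont)).continuousAt
    · rw [hM0]; exact hs.ne
  set c2 : ℝ := LL 0 / s 1 with hc2
  have hc20 : 0 < c2 := div_pos_of_neg_of_neg LL_zero hs
  have hrat : ∀ᶠ α in 𝓝 (0:ℝ), c2 / 2 < LL α / M (1, sl α) := by
    refine hratio.eventually_const_lt ?_
    simp only [hM0]; linarith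
  have hsmall : ∀ᶠ α in 𝓝 (0:ℝ), N * |α| < ε ∧ K * N ^ 3 * |α| < c2 / 2 := by
    have h1 : ∀ᶠ α in 𝓝 (0:ℝ), N * |α| < ε := by
      have : Continuous (fun α : ℝ => N * |α|) := by fun_prop
      refine this.continuousAt.eventually_lt_const ?_
      simpa using hε
    have h2 : ∀ᶠ α in 𝓝 (0:ℝ), K * N ^ 3 * |α| < c2 / 2 := by
      have : Continuous (fun α : ℝ => K * N ^ 3 * |α|) := by fun_prop
      refine this.continuousAt.eventually_lt_const ?_
      simp; exact hc20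
    exact h1.and h2
  have hne : ∀ᶠ α in 𝓝[≠] (0:ℝ), α ≠ 0 := eventually_mem_nhdsWithin
  filter_upwards [hrat.filter_mono nhdsWithin_le_nhds, hsmall.filter_mono nhdsWithin_le_nhds, hne]
    with α h1 h2 h3 c hc hD
  have ha0 : 0 < |α| := abs_pos.2 h3
  have hball' : ∀ t ∈ Metric.closedBall (1:ℝ) (N * |α|), M (t, sl α) ≠ 0 ∧
      |rho' (t, sl α)| ≤ K * (N * |α|) ^ 2 := by
    intro t ht
    rw [Metric.mem_closedBall, Real.dist_eq] at ht
    have hle : ‖((t, sl α) : ℝ × P) - (1, l0)‖ ≤ N * |α| := by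
      rw [norm_sub_l0]
      exact max_le ht (by nlinarith)
    have h4 := hball (y := (t, sl α)) (by rw [dist_eq_norm]; exact lt_of_le_of_lt hle h2.1)
    refine ⟨h4.1, h4.2.trans ?_⟩
    gcongr
  have hmv := Convex.norm_image_sub_le_of_norm_hasDerivWithin_le
    (f := fun t => rho (t, sl α)) (f' := fun t => rho' (t, sl α)) (C := K * (N * |α|) ^ 2)
    (s := Metric.closedBall (1:ℝ) (N * |α|)) (x := 1) (y := c)
    (fun t ht => (rho_deriv (t, sl α) (hball' t ht).1).hasDerivWithinAt)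
    (fun t ht => (hball' t ht).2) (convex_closedBall _ _)
    (Metric.mem_closedBall_self (by positivity))
    (by rw [Metric.mem_closedBall, Real.dist_eq]; exact hc)
  have h5 : rho (c, sl α) = 0 := by rw [rho, hD, zero_div]
  have h6 : rho (1, sl α) = -(α ^ 2 * (LL α / M (1, sl α))) := by
    rw [rho, D_sl']; ring
  simp only [h5, h6, Real.norm_eq_abs] at hmv
  have h7 : α ^ 2 * (c2 / 2) < |0 - -(α ^ 2 * (LL α / M (1, sl α)))| := by
    rw [zero_sub, neg_neg]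
    refine lt_of_lt_of_le ?_ (le_abs_self _)
    exact mul_lt_mul_of_pos_left h1 (by positivity)
  have h8 : K * (N * |α|) ^ 2 * |c - 1| ≤ α ^ 2 * (K * N ^ 3 * |α|) := by
    calc K * (N * |α|) ^ 2 * |c - 1| ≤ K * (N * |α|) ^ 2 * (N * |α|) := by gcongr
      _ = |α| ^ 2 * (K * N ^ 3 * |α|) := by ring
      _ = α ^ 2 * (K * N ^ 3 * |α|) := by rw [sq_abs]
  have h9 : α ^ 2 * (K * N ^ 3 * |α|) < α ^ 2 * (c2 / 2) :=
    mul_lt_mul_of_pos_left h2.2 (by positivity)
  linarith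

end Pool.Agent.H70.SR
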