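import Mathlib
import Pool.Agent.H70.SR.Defs
import Pool.Agent.H70.SR.Reg

/-! The sub-Riemannian structure and its exponential map. -/

open scoped ContDiff Topology
open Set Filter

namespace Pool.Agent.H70.SR

lemma fd_eq {E : Type*} [NormedAddCommGroup E] [NormedSpace ℝ E] {G : P → E} {x v : P} {d : E}
    (hG : DifferentiableAt ℝ G x) (h : HasDerivAt (fun s : ℝ => G (x + s • v)) d 0) :
    fderiv ℝ G x v = d := by
  have h1 : HasFDerivAt G (fderiv ℝ G x) (x + (0:ℝ) • v) := by simpa using hG.hasFDerivAt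
  have h2 : HasDerivAt (fun s : ℝ => x + s • v) v 0 := by
    simpa using ((hasDerivAt_id (0:ℝ)).smul_const v).const_add x
  exact (h1.comp_hasDerivAt 0 h2).unique h

/-- the frame -/
noncomputable def X0 (q : P) : P := ![√(1 + 12 * q 1 ^ 2), 0, 0]
noncomputable def X1 (q : P) : P := ![0, 1, f (q 0)]
noncomputable def B1 (q : P) : P := ![-(12 * q 1 / √(1 + 12 * q 1 ^ 2)), 0,
  f1 (q 0) * √(1 + 12 * q 1 ^ 2)]

lemma rpos (q : P) : 0 < √(1 + 12 * q 1 ^ 2) := Real.sqrt_pos.2 (by positivity)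
lemma rsq (q : P) : √(1 + 12 * q 1 ^ 2) ^ 2 = 1 + 12 * q 1 ^ 2 := Real.sq_sqrt (by positivity)

lemma r_smooth : ContDiff ℝ ∞ (fun q : P => √(1 + 12 * q 1 ^ 2)) := by
  refine ContDiff.sqrt (by fun_prop) fun q => ?_
  positivity

lemma X0_smooth : ContDiff ℝ ∞ X0 := by
  rw [contDiff_pi]
  have := r_smooth
  intro i; fin_cases i
  · exact r_smooth
  · exact contDiff_const
  · exact contDiff_const

lemma X1_smooth : ContDiff ℝ ∞ X1 := by
  rw [contDiff_pi]
  have hf := contDiff_f
  intro i; fin_cases i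
  · exact contDiff_const
  · exact contDiff_const
  · exact hf.comp (by fun_prop : ContDiff ℝ ∞ fun q : P => q 0)

lemma B1_smooth : ContDiff ℝ ∞ B1 := by
  rw [contDiff_pi]
  have hf := contDiff_f1
  have hr := r_smooth
  intro i; fin_cases i
  · exact ((by fun_prop : ContDiff ℝ ∞ fun q : P => 12 * q 1).div hr
      (fun q => (rpos q).ne')).neg
  · exact contDiff_const
  · exact (hf.comp (by fun_prop : ContDiff ℝ ∞ fun q : P => q 0)).mul hr

lemma lin (q v : P) (i : Fin 3) : HasDerivAt (fun s : ℝ => (q + s • v) i) (v i) 0 := by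
  simpa using ((hasDerivAt_id (0:ℝ)).mul_const (v i)).const_add (q i)

lemma r_line (q v : P) : HasDerivAt (fun s : ℝ => √(1 + 12 * (q + s • v) 1 ^ 2))
    (12 * q 1 * v 1 / √(1 + 12 * q 1 ^ 2)) 0 := by
  have h1 := (((lin q v 1).pow 2).const_mul 12).const_add 1
  have h2 := h1.sqrt (by simp; positivity)
  refine h2.congr_deriv ?_
  have := (rpos q).ne'
  simp only [zero_smul, add_zero, Pi.pow_apply]
  push_cast
  field_simp

lemma f_line (q v : P) : HasDerivAt (fun s : ℝ => f ((q + s • v) 0)) (f1 (q 0) * v 0) 0 := by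
  have h := HasDerivAt.comp (h₂ := f) (h := fun s : ℝ => (q + s • v) 0) 0
    (hasDerivAt_f _) (lin q v 0)
  simp only [zero_smul, add_zero] at h
  exact h

lemma f1_line (q v : P) : HasDerivAt (fun s : ℝ => f1 ((q + s • v) 0)) (f2 (q 0) * v 0) 0 := by
  have h := HasDerivAt.comp (h₂ := f1) (h := fun s : ℝ => (q + s • v) 0) 0
    (hasDerivAt_f1 _) (lin q v 0)
  simp only [zero_smul, add_zero] at h
  exact h

lemma fderiv_X0 (q v : P) : fderiv ℝ X0 q v = ![12 * q 1 * v 1 / √(1 + 12 * q 1 ^ 2), 0, 0] := by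
  refine fd_eq (X0_smooth.differentiable (by simp) q) ?_
  rw [hasDerivAt_pi]
  intro i; fin_cases i
  · exact r_line q v
  · exact hasDerivAt_const _ _
  · exact hasDerivAt_const _ _

lemma fderiv_X1 (q v : P) : fderiv ℝ X1 q v = ![0, 0, f1 (q 0) * v 0] := by
  refine fd_eq (X1_smooth.differentiable (by simp) q) ?_
  rw [hasDerivAt_pi]
  intro i; fin_cases i
  · exact hasDerivAt_const _ _
  · exact hasDerivAt_const _ _
  · exact f_line q v

lemma lie01 : VectorField.lieBracket ℝ X0 X1 = B1 := by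
  ext q i
  rw [VectorField.lieBracket, fderiv_X0, fderiv_X1]
  fin_cases i
  · simp [B1, X1]
  · simp [B1]
  · simp [B1, X0]

lemma fderiv_B1 (q : P) (c : ℝ) : fderiv ℝ B1 q ![c, 0, 0] =
    ![0, 0, f2 (q 0) * c * √(1 + 12 * q 1 ^ 2)] := by
  refine fd_eq (B1_smooth.differentiable (by simp) q) ?_
  rw [hasDerivAt_pi]
  intro i; fin_cases i
  · have : (fun s : ℝ => B1 (q + s • ![c, 0, 0]) 0) = fun _ => B1 q 0 := by
      ext s; simp [B1]
    have h := hasDerivAt_const (0:ℝ) (B1 q 0)
    rw [← this] at h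
    exact h
  · exact hasDerivAt_const _ _
  · have h := (f1_line q ![c, 0, 0]).mul (r_line q ![c, 0, 0])
    refine h.congr_deriv ?_
    simp

lemma lie001 (q : P) : VectorField.lieBracket ℝ X0 B1 q =
    ![0, 0, f2 (q 0) * (1 + 12 * q 1 ^ 2)] := by
  rw [VectorField.lieBracket, fderiv_X0]
  have : X0 q = ![√(1 + 12 * q 1 ^ 2), 0, 0] := rfl
  rw [this, fderiv_B1]
  ext i
  fin_cases i
  · simp [B1]
  · simp
  · simp
    rw [mul_assoc, ← sq, rsq]

/-- The sub-Riemannian structure on `ℝ³` of the counterexample, with the orthonormal frame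
`√(1+12y²) ∂_x`, `∂_y + f(x) ∂_z`. -/
noncomputable def S3 : Structure 3 2 where
  X := ![X0, X1]
  smooth := by
    intro i; fin_cases i
    · exact X0_smooth
    · exact X1_smooth
  independent := by
    intro q
    have h : (fun i => (![X0, X1] : Fin 2 → P → P) i q) = ![X0 q, X1 q] := by
      ext i; fin_cases i <;> rfl
    rw [h, LinearIndependent.pair_iff]
    intro a b hab
    have h0 := congrFun hab 0
    have h1 := congrFun hab 1
    simp [X0, X1] at h0 h1
    refine ⟨?_, h1⟩
    rcases h0 with h0 | h0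
    · exact h0
    · exact absurd h0 (rpos q).ne'
  generating := by
    intro q
    set V := Submodule.span ℝ {v | ∃ V, Bracket ![X0, X1] V ∧ V q = v} with hV
    have b0 : Bracket ![X0, X1] X0 := Bracket.frame (X := ![X0, X1]) 0
    have b1 : Bracket ![X0, X1] X1 := Bracket.frame (X := ![X0, X1]) 1
    have b01 : Bracket ![X0, X1] B1 := by rw [← lie01]; exact b0.lie b1
    have b001 := b0.lie b01
    have m0 : X0 q ∈ V := Submodule.subset_span ⟨_, b0, rfl⟩
    have m1 : X1 q ∈ V := Submodule.subset_span ⟨_, b1, rfl⟩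
    have m2 : B1 q ∈ V := Submodule.subset_span ⟨_, b01, rfl⟩
    have m3 : VectorField.lieBracket ℝ X0 B1 q ∈ V := Submodule.subset_span ⟨_, b001, rfl⟩
    have hr := (rpos q).ne'
    have e0 : e 0 ∈ V := by
      have : e 0 = (√(1 + 12 * q 1 ^ 2))⁻¹ • X0 q := by
        ext i; fin_cases i <;> simp [X0, hr]
      rw [this]; exact V.smul_mem _ m0
    have e2 : e 2 ∈ V := by
      by_cases hf : f1 (q 0) = 0
      · have hf2 : f2 (q 0) ≠ 0 := by
          intro h2
          have h3 : 12 * (2 * q 0 - 1) * (2 * q 0 ^ 2 - 2 * q 0 + 1) = 0 := by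
            rw [← h2, f2]; ring
          have h4 : 0 < 2 * q 0 ^ 2 - 2 * q 0 + 1 := by nlinarith [sq_nonneg (q 0 - 1 / 2)]
          have h5 : q 0 = 1 / 2 := by
            rcases mul_eq_zero.1 h3 with h | h
            · linarith
            · linarith
          rw [h5] at hf
          norm_num [f1] at hf
        have : e 2 = (f2 (q 0) * (1 + 12 * q 1 ^ 2))⁻¹ • VectorField.lieBracket ℝ X0 B1 q := by
          have h6 : 1 + 12 * q 1 ^ 2 ≠ 0 := by positivity
          rw [lie001]
          ext i; fin_cases i <;> simp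
          field_simp
        rw [this]; exact V.smul_mem _ m3
      · have : e 2 = (f1 (q 0) * √(1 + 12 * q 1 ^ 2))⁻¹ •
            (B1 q + (12 * q 1 / √(1 + 12 * q 1 ^ 2)) • e 0) := by
          have hB0 : B1 q 0 = -(12 * q 1 / √(1 + 12 * q 1 ^ 2)) := rfl
          have hB1 : B1 q 1 = 0 := rfl
          have hB2 : B1 q 2 = f1 (q 0) * √(1 + 12 * q 1 ^ 2) := rfl
          ext i
          rw [Pi.smul_apply, Pi.add_apply, Pi.smul_apply, smul_eq_mul, smul_eq_mul]
          fin_cases i
          · simp [hB0]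
          · simp [hB1]
          · simp only [Fin.reduceFinMk, hB2, e22, e02]
            field_simp
            simp
        rw [this]; exact V.smul_mem _ (V.add_mem m2 (V.smul_mem _ e0))
    have e1 : e 1 ∈ V := by
      have : e 1 = X1 q - f (q 0) • e 2 := by
        ext i; fin_cases i <;> simp [X1]
      rw [this]; exact V.sub_mem m1 (V.smul_mem _ e2)
    rw [eq_top_iff]
    intro v _
    have : v = v 0 • e 0 + v 1 • e 1 + v 2 • e 2 := by
      ext i; fin_cases i <;> simp
    rw [this]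
    exact V.add_mem (V.add_mem (V.smul_mem _ e0) (V.smul_mem _ e1)) (V.smul_mem _ e2)

lemma ham_eq (q p : P) : S3.ham q p =
    ((1 + 12 * q 1 ^ 2) * p 0 ^ 2 + (p 1 + f (q 0) * p 2) ^ 2) / 2 := by
  simp only [Structure.ham, S3, Fin.sum_univ_two, Fin.sum_univ_three]
  simp [X0, X1]
  rw [mul_pow, rsq]
  ring

lemma dham_p (q p : P) (j : Fin 3) : fderiv ℝ (fun π => S3.ham q π) p (Pi.single j 1) =
    ![(1 + 12 * q 1 ^ 2) * p 0, p 1 + f (q 0) * p 2, f (q 0) * (p 1 + f (q 0) * p 2)] j := by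
  have hG : DifferentiableAt ℝ (fun π => S3.ham q π) p := by
    simp only [ham_eq]; fun_prop
  refine fd_eq hG ?_
  simp only [ham_eq]
  set v : P := Pi.single j 1 with hv
  have h := ((((lin p v 0).pow 2).const_mul (1 + 12 * q 1 ^ 2)).add
    (((lin p v 1).add ((lin p v 2).const_mul (f (q 0)))).pow 2)).div_const 2
  refine h.congr_deriv ?_
  simp only [zero_smul, add_zero, Pi.add_apply]
  fin_cases j <;> simp [hv] <;> ring

lemma dham_q (q p : P) (j : Fin 3) : fderiv ℝ (fun y => S3.ham y p) q (Pi.single j 1) =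
    ![(p 1 + f (q 0) * p 2) * f1 (q 0) * p 2, 12 * q 1 * p 0 ^ 2, 0] j := by
  have hG : DifferentiableAt ℝ (fun y => S3.ham y p) q := by
    have hf : DifferentiableAt ℝ (fun y : P => f (y 0)) q :=
      ((contDiff_f.comp (by fun_prop : ContDiff ℝ ∞ fun q : P => q 0)).differentiable
        (by simp)) q
    simp only [ham_eq]; fun_prop
  refine fd_eq hG ?_
  simp only [ham_eq]
  set v : P := Pi.single j 1 with hv
  have h := (((((lin q v 1).pow 2).const_mul 12).const_add 1).mul_const (p 0 ^ 2)).add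
    ((((f_line q v).mul_const (p 2)).const_add (p 1)).pow 2) |>.div_const 2
  refine h.congr_deriv ?_
  simp only [zero_smul, add_zero, Pi.add_apply]
  fin_cases j <;> simp [hv] <;> ring

end Pool.Agent.H70.SR
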