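import Mathlib
import Pool.Agent.H70.SR.Geo
import Pool.Agent.H70.SR.Model

/-! The regular conjugate locus of the example is not a submanifold. -/

open scoped ContDiff Topology
open Set Filter

namespace Pool.Agent.H70.SR

/-- the exponential map at the origin -/
noncomputable def ex (l : P) : P := ![comp 0 (1, l), comp 1 (1, l), comp 2 (1, l)]

lemma traj_iff (q p : ℝ → P) : S3.IsTrajectory q p ↔
    ∀ t, HasDerivAt (fun t => (![q t 0, q t 1, q t 2, p t 0, p t 1, p t 2] : St))
      (F ![q t 0, q t 1, q t 2, p t 0, p t 1, p t 2]) t := by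
  unfold Structure.IsTrajectory
  simp only [dham_p, dham_q]
  refine forall_congr' fun t => ?_
  rw [hasDerivAt_pi]
  constructor
  · intro h i
    fin_cases i
    · simpa [F] using (h 0).1
    · simpa [F] using (h 1).1
    · simpa [F] using (h 2).1
    · simpa [F] using (h 0).2
    · simpa [F] using (h 1).2
    · simpa [F] using (h 2).2
  · intro h j
    have h0 := h 0
    have h1 := h 1
    have h2 := h 2
    have h3 := h 3
    have h4 := h 4
    have h5 := h 5
    fin_cases j
    · exact ⟨by simpa [F] using h0, by simpa [F] using h3⟩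
    · exact ⟨by simpa [F] using h1, by simpa [F] using h4⟩
    · exact ⟨by simpa [F] using h2, by simpa [F] using h5⟩

lemma isExp : S3.IsExp 0 ex := by
  intro l
  refine ⟨fun t => ![comp 0 (t, l), comp 1 (t, l), comp 2 (t, l)],
    fun t => ![comp 3 (t, l), comp 4 (t, l), comp 5 (t, l)], ?_, ?_, ?_, rfl⟩
  · rw [traj_iff]
    intro t
    have h := Fl_deriv (ini l) t
    have h1 : (fun t => (![comp 0 (t, l), comp 1 (t, l), comp 2 (t, l), comp 3 (t, l),
        comp 4 (t, l), comp 5 (t, l)] : St)) = Fl (ini l) := by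
      ext t i; fin_cases i <;> rfl
    simp only [Matrix.cons_val]
    rw [h1, congrFun h1 t]
    exact h
  · ext i; fin_cases i <;> simp [comp_zero, ini]
  · ext i; fin_cases i <;> simp [comp_zero, ini]

lemma isExp_unique {ex' : P → P} (h : S3.IsExp 0 ex') : ex' = ex := by
  funext l
  obtain ⟨q, p, h1, h2, h3, h4⟩ := h l
  rw [traj_iff] at h1
  have h5 := Fl_unique h1
  have h6 : (![q 0 0, q 0 1, q 0 2, p 0 0, p 0 1, p 0 2] : St) = ini l := by
    rw [h2, h3]; ext i; fin_cases i <;> simp [ini]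
  rw [h6] at h5
  have h7 := congrFun h5 1
  rw [h4]
  ext i
  fin_cases i
  · exact congrFun h7 0
  · exact congrFun h7 1
  · exact congrFun h7 2

lemma ex_smooth : ContDiff ℝ ∞ ex := by
  rw [contDiff_pi]
  have hc : ∀ i, ContDiff ℝ ∞ (fun l : P => comp i (1, l)) := fun i =>
    (comp_smooth i).comp (contDiff_const.prodMk contDiff_id)
  intro i
  fin_cases i
  · exact hc 0
  · exact hc 1
  · exact hc 2

lemma fderiv_ex (l v : P) : fderiv ℝ ex l v =
    ![pd v (comp 0) (1, l), pd v (comp 1) (1, l), pd v (comp 2) (1, l)] := by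
  refine fd_eq (ex_smooth.differentiable (by simp) l) ?_
  rw [hasDerivAt_pi]
  intro i
  fin_cases i
  · exact slice (comp_smooth 0) v (1, l)
  · exact slice (comp_smooth 1) v (1, l)
  · exact slice (comp_smooth 2) v (1, l)

lemma pd_lin (i : Fin 6) (p : ℝ × P) (v : P) : pd v (comp i) p =
    J i 0 p * v 0 + J i 1 p * v 1 + J i 2 p * v 2 := by
  unfold J pd
  have h : ((0:ℝ), v) = v 0 • ((0:ℝ), e 0) + v 1 • ((0:ℝ), e 1) + v 2 • ((0:ℝ), e 2) := by
    ext i
    · simp
    · fin_cases i <;> simp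
  conv_lhs => rw [h]
  rw [map_add, map_add, map_smul, map_smul, map_smul]
  simp only [smul_eq_mul]
  ring

/-- the matrix of the differential -/
noncomputable def Mat (l : P) : Matrix (Fin 3) (Fin 3) ℝ :=
  !![J 0 0 (1, l), J 0 1 (1, l), J 0 2 (1, l); J 1 0 (1, l), J 1 1 (1, l), J 1 2 (1, l);
    J 2 0 (1, l), J 2 1 (1, l), J 2 2 (1, l)]

lemma fderiv_mat (l v : P) : fderiv ℝ ex l v = (Mat l).mulVec v := by
  rw [fderiv_ex]
  ext i
  fin_cases i <;>
    simp [Mat, Matrix.mulVec, dotProduct, Fin.sum_univ_three, pd_lin]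

lemma det_mat (l : P) : (Mat l).det = D (1, l) := by
  rw [Matrix.det_fin_three]
  simp [Mat, D, M, c0, c1]
  ring

lemma conj_iff (l : P) : IsConjugate ex l ↔ l ≠ 0 ∧ D (1, l) = 0 := by
  unfold IsConjugate
  have h1 : (⇑(fderiv ℝ ex l)) = (Mat l).mulVec := funext (fderiv_mat l)
  rw [h1, Matrix.mulVec_injective_iff_isUnit, Matrix.isUnit_iff_isUnit_det, isUnit_iff_ne_zero,
    not_not, det_mat]

lemma J_scale (i : Fin 3) (j : Fin 3) (c : ℝ) (l : P) :
    J (Fin.castLE (by norm_num) i) j (c, l) = c * J (Fin.castLE (by norm_num) i) j (1, c • l) := by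
  apply pd_eq (comp_smooth _)
  have h0 : ∀ l' : P, comp (Fin.castLE (by norm_num) i) (c, l') =
      comp (Fin.castLE (by norm_num) i) (1, c • l') := by
    intro l'
    have h := scale c 1 l'
    rw [mul_one] at h
    fin_cases i
    · exact h.1.symm
    · exact h.2.1.symm
    · exact h.2.2.symm
  have h1 := slice (comp_smooth (Fin.castLE (by norm_num) i)) (e j) (1, c • l)
  have h2 : HasDerivAt (fun s : ℝ => c * s) c 0 := by simpa using (hasDerivAt_id (0:ℝ)).const_mul c
  have h3 := HasDerivAt.comp (h₂ := fun s : ℝ => comp (Fin.castLE (by norm_num) i)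
    (1, c • l + s • e j)) (h := fun s : ℝ => c * s) 0 (by simpa using h1) h2
  have h4 : (fun s : ℝ => comp (Fin.castLE (by norm_num) i) ((c, l).1, (c, l).2 + s • e j)) =
      (fun s : ℝ => comp (Fin.castLE (by norm_num) i) (1, c • l + s • e j)) ∘ fun s => c * s := by
    ext s
    simp only [Function.comp]
    rw [h0, smul_add, smul_smul]
  rw [h4]
  refine h3.congr_deriv ?_
  simp only [J]; ring

lemma D_scale (c : ℝ) (l : P) : D (c, l) = c ^ 3 * D (1, c • l) := by
  have h0 := fun j => J_scale 0 j c l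
  have h1 := fun j => J_scale 1 j c l
  have h2 := fun j => J_scale 2 j c l
  have e0 : ∀ j, J 0 j (c, l) = c * J 0 j (1, c • l) := h0
  have e1 : ∀ j, J 1 j (c, l) = c * J 1 j (1, c • l) := h1
  have e2 : ∀ j, J 2 j (c, l) = c * J 2 j (1, c • l) := h2
  simp only [D, M, c0, c1, e0, e1, e2]
  ring

/-- the reflection as a linear equivalence -/
noncomputable def sig : P ≃L[ℝ] P :=
  (LinearEquiv.ofInvolutive
    { toFun := refl
      map_add' := fun u v => by ext i; fin_cases i <;> simp [refl] <;> ring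
      map_smul' := fun c v => by ext i; fin_cases i <;> simp [refl] }
    (fun v => by ext i; fin_cases i <;> simp [refl])).toContinuousLinearEquiv

lemma sig_apply (v : P) : sig v = refl v := rfl

lemma sig_ex (l : P) : ex (sig l) = sig (ex l) := by
  rw [sig_apply, sig_apply]
  obtain ⟨h0, h1, h2⟩ := reflection 1 l
  ext i
  fin_cases i
  · exact h0
  · exact h1
  · exact h2

lemma sig_conj {l : P} (h : IsConjugate ex l) : IsConjugate ex (sig l) := by
  refine ⟨fun h0 => h.1 ?_, fun hinj => h.2 ?_⟩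
  · exact sig.injective (by rw [h0, map_zero])
  · have hd : ∀ l, HasFDerivAt ex (fderiv ℝ ex l) l := fun l =>
      (ex_smooth.differentiable (by simp) l).hasFDerivAt
    have h1 := (hd (sig l)).comp l (sig : P →L[ℝ] P).hasFDerivAt
    have h2 := (sig : P →L[ℝ] P).hasFDerivAt.comp l (hd l)
    have h3 : ex ∘ ⇑sig = ⇑(sig : P →L[ℝ] P) ∘ ex := funext sig_ex
    rw [h3] at h1
    have h4 := h1.unique h2
    have h5 : ∀ v, fderiv ℝ ex (sig l) (sig v) = sig (fderiv ℝ ex l v) := fun v =>
      congrArg (fun L : P →L[ℝ] P => L v) h4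
    intro u v huv
    have h6 : fderiv ℝ ex (sig l) (sig u) = fderiv ℝ ex (sig l) (sig v) := by
      rw [h5, h5, huv]
    exact sig.injective (hinj h6)

/-- the direction of a covector -/
noncomputable def dir (μ : P) : P := ![1, μ 1 / μ 0, μ 2 / μ 0]

lemma coord_lt {μ : P} {δ : ℝ} (h : dist μ l0 < δ) : |μ 0 - 1| < δ ∧ |μ 1| < δ ∧ |μ 2| < δ := by
  have h1 := (dist_le_pi_dist μ l0 0).trans_lt h
  have h2 := (dist_le_pi_dist μ l0 1).trans_lt h
  have h3 := (dist_le_pi_dist μ l0 2).trans_lt h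
  rw [Real.dist_eq] at h1 h2 h3
  simp at h1 h2 h3
  exact ⟨h1, h2, h3⟩

lemma smul_dir {μ : P} (h : μ 0 ≠ 0) : μ 0 • dir μ = μ := by
  ext i; fin_cases i <;> simp [dir] <;> field_simp

section

variable {ε : ℝ}

lemma near {μ : P} (hμ : dist μ l0 < min (ε / 2) (1 / 2)) : 0 < μ 0 ∧ |μ 0 - 1| < ε ∧
    dist (dir μ) l0 < ε := by
  obtain ⟨h0, h1, h2⟩ := coord_lt hμ
  have e1 := min_le_left (ε / 2) (1 / 2)
  have e2 := min_le_right (ε / 2) (1 / 2)
  have hε : 0 < ε := by
    have := abs_nonneg (μ 1)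
    linarith
  have hμ0 : 1 / 2 < μ 0 := by
    have := (abs_lt.1 h0).1
    linarith
  refine ⟨by linarith, by linarith, ?_⟩
  rw [dist_pi_lt_iff hε]
  intro i
  have key : ∀ x : ℝ, |x| < ε / 2 → |x / μ 0| < ε := by
    intro x hx
    rw [abs_div, abs_of_pos (by linarith : 0 < μ 0), div_lt_iff₀ (by linarith)]
    nlinarith
  fin_cases i
  · simpa [dir] using hε
  · simp only [Fin.mk_one, Real.dist_eq, dir, sl1, sub_zero]
    exact key _ (by linarith)
  · have : dist (dir μ 2) (l0 2) = |μ 2 / μ 0| := by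
      rw [Real.dist_eq]; simp [dir]
    change dist (dir μ 2) (l0 2) < ε
    rw [this]
    exact key _ (by linarith)

variable (hN : ∀ (t : ℝ) (l : P), |t - 1| < ε → dist l l0 < ε →
    M (t, l) ≠ 0 ∧ ht (t, l) ≠ 0)
include hN

lemma regular_of_conj {μ : P} (hμ : dist μ l0 < min (ε / 2) (1 / 2)) (hc : IsConjugate ex μ) :
    μ ∈ regularLocus ex := by
  refine ⟨hc, Metric.ball l0 (min (ε / 2) (1 / 2)), Metric.isOpen_ball, hμ, ?_⟩
  rintro v hv u ⟨hu, huc, tu, htu⟩ w ⟨hw, hwc, tw, htw⟩
  obtain ⟨u0, u1, u2⟩ := near (ε := ε) hu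
  obtain ⟨w0, w1, w2⟩ := near (ε := ε) hw
  have hDu : D (u 0, dir u) = 0 := by
    rw [D_scale, smul_dir u0.ne', ((conj_iff u).1 huc).2, mul_zero]
  have hDw : D (w 0, dir w) = 0 := by
    rw [D_scale, smul_dir w0.ne', ((conj_iff w).1 hwc).2, mul_zero]
  have htu0 : tu ≠ 0 := by
    rintro rfl; rw [zero_smul] at htu; rw [htu] at u0; simp at u0
  have htw0 : tw ≠ 0 := by
    rintro rfl; rw [zero_smul] at htw; rw [htw] at w0; simp at w0
  have hv0 : v 0 ≠ 0 := by
    intro h; rw [htu] at u0; simp [h] at u0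
  have hdir : dir u = dir w := by
    rw [htu, htw]
    ext i
    fin_cases i
    · rfl
    · simp [dir]; field_simp
    · simp [dir]; field_simp
  rw [← hdir] at hDw
  have h := unique_zero hN u2 u1 w1 hDu hDw
  rw [← smul_dir u0.ne', ← smul_dir w0.ne', hdir, h]

end

lemma conj_l0 : IsConjugate ex l0 := by
  rw [conj_iff]
  refine ⟨fun h => ?_, D_0⟩
  have := congrFun h 0
  simp at this

/-- the kernel of the differential at `(1, 0, 0)` -/
lemma ker_l0 : LinearMap.ker (fderiv ℝ ex l0).toLinearMap = Submodule.span ℝ {e 2} := by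
  have hM : M (1, l0) ≠ 0 := by rw [M_0, one_mul]; exact s_one_neg.ne
  have h22 : J 2 2 (1, l0) = 0 := by
    have h := D_0
    simp only [D, c0_0, c1_0, y0_one, mul_zero, neg_zero, zero_add] at h
    exact (mul_eq_zero.1 h).resolve_right hM
  have hs := s_one_neg.ne
  ext v
  rw [LinearMap.mem_ker, Submodule.mem_span_singleton]
  change fderiv ℝ ex l0 v = 0 ↔ _
  rw [fderiv_ex]
  simp only [pd_lin, J00_0, J01_0, J02_0, J10_0, (J11_sl 0 1).1, J12_0, y0_one, h22]
  constructor
  · intro h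
    have h0 := congrFun h 0
    have h1 := congrFun h 1
    simp at h0 h1
    have h1' : v 1 = 0 := h1.resolve_left hs
    refine ⟨v 2, ?_⟩
    ext i; fin_cases i <;> simp [h0, h1']
  · rintro ⟨c, rfl⟩
    ext i; fin_cases i <;> simp

theorem main : l0 ∈ regularLocus ex ∧ ¬ IsSubmanifoldAt 1 (regularLocus ex) l0 := by
  obtain ⟨ε, hε, hε1, hN⟩ := exists_nhd
  set ρ := min (ε / 2) (1 / 2) with hρ
  have hρ0 : 0 < ρ := by positivity
  have hreg : ∀ μ, dist μ l0 < ρ → IsConjugate ex μ → μ ∈ regularLocus ex := fun μ hμ hc =>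
    regular_of_conj hN hμ hc
  have hl0 : l0 ∈ regularLocus ex := hreg l0 (by simpa using hρ0) conj_l0
  refine ⟨hl0, ?_⟩
  have hsig0 : sig l0 = l0 := by
    rw [sig_apply]; ext i; fin_cases i <;> simp [refl]
  -- choice of the sequence
  have hseq : ∀ k : ℕ, ∃ α c : ℝ, 0 < |α| ∧ |α| < 1 / ((k:ℝ) + 1) ∧ |c - 1| < 1 / ((k:ℝ) + 1) ∧
      ((k:ℝ) + 1) * |α| < |c - 1| ∧ c • sl α ∈ regularLocus ex := by
    intro k
    have hk : (0:ℝ) < 1 / ((k:ℝ) + 1) := by positivity
    set δ := min (1 / ((k:ℝ) + 1)) (ρ / 4) with hδ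
    have hδ0 : 0 < δ := by positivity
    have h1 := exists_zero hN hε hδ0
    have h2 := far ((k:ℝ) + 1) (by have := k.cast_nonneg (α := ℝ); linarith)
    have h3 : ∀ᶠ α : ℝ in 𝓝 0, |α| < δ := by
      have := continuous_abs.continuousAt (x := (0:ℝ))
      exact this.eventually_lt_const (by simpa using hδ0)
    have h4 : ∀ᶠ α : ℝ in 𝓝[≠] 0, α ≠ 0 := eventually_mem_nhdsWithin
    have hne : (𝓝[≠] (0:ℝ)).NeBot := inferInstance
    obtain ⟨α, ⟨⟨⟨c, hc, hD⟩, ha⟩, hf⟩, ha0⟩ := (((h1.filter_mono nhdsWithin_le_nhds).and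
      (h3.filter_mono nhdsWithin_le_nhds)).and h2 |>.and h4).exists
    have d1 : δ ≤ 1 / ((k:ℝ) + 1) := min_le_left _ _
    have d2 : δ ≤ ρ / 4 := min_le_right _ _
    refine ⟨α, c, abs_pos.2 ha0, by linarith, by linarith, ?_, ?_⟩
    · by_contra hcon
      exact hf c (not_lt.1 hcon) hD
    · have hρ1 : ρ ≤ 1 / 2 := min_le_right _ _
      have hc2 : |c| < 2 := by
        have := abs_lt.1 hc
        rw [abs_lt]; constructor <;> linarith
      have hcne : c ≠ 0 := by
        have := abs_lt.1 hc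
        intro h; rw [h] at this; linarith
      apply hreg
      · rw [dist_pi_lt_iff hρ0]
        intro i
        fin_cases i
        · simp [Real.dist_eq]; linarith
        · simp [Real.dist_eq, abs_mul]
          nlinarith [abs_nonneg α, abs_nonneg c]
        · simpa using hρ0
      · rw [conj_iff]
        constructor
        · intro h
          have := congrFun h 0
          simp at this
          exact hcne this
        · rw [D_scale] at hD
          exact (mul_eq_zero.1 hD).resolve_left (pow_ne_zero _ hcne)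
  choose α c h1 h2 h3 h4 h5 using hseq
  have ht0 : Tendsto (fun k : ℕ => 1 / ((k:ℝ) + 1)) atTop (𝓝 0) :=
    tendsto_one_div_add_atTop_nhds_zero_nat
  have hα : Tendsto α atTop (𝓝 0) :=
    squeeze_zero_norm (fun k => (h2 k).le) ht0
  have hc : Tendsto c atTop (𝓝 1) := by
    have : Tendsto (fun k => c k - 1) atTop (𝓝 0) :=
      squeeze_zero_norm (fun k => (h3 k).le) ht0
    simpa using this.add_const 1
  have hcne : ∀ k, c k - 1 ≠ 0 := by
    intro k h
    have := h4 k
    rw [h, abs_zero] at this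
    have h6 := h1 k
    have h7 : (0:ℝ) < (k:ℝ) + 1 := by positivity
    nlinarith
  have hquot : Tendsto (fun k => (c k - 1)⁻¹ * (c k * α k)) atTop (𝓝 0) := by
    have hq : Tendsto (fun k => α k / (c k - 1)) atTop (𝓝 0) := by
      refine squeeze_zero_norm (fun k => ?_) ht0
      rw [Real.norm_eq_abs, abs_div]
      have h7 : (0:ℝ) < (k:ℝ) + 1 := by positivity
      rw [div_le_div_iff₀ (abs_pos.2 (hcne k)) h7]
      have := h4 k
      linarith
    have := hc.mul hq
    rw [mul_zero] at this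
    refine this.congr fun k => ?_
    field_simp
  refine not_submanifold (r := fun k => c k - 1) (x := fun k => c k • sl (α k))
    ?_ hl0 sig ?_ hsig0 ?_ ?_ ?_ h5 ?_ ?_
  · exact conj_l0.1
  · intro v
    rw [sig_apply, sig_apply]; ext i; fin_cases i <;> simp [refl]
  · intro v hv
    rw [sig_apply] at hv
    have e1 := congrFun hv 1
    have e2 := congrFun hv 2
    simp [refl] at e1 e2
    have e1' : v 1 = 0 := by linarith
    have e2' : v 2 = 0 := by linarith
    refine ⟨v 0, ?_⟩
    ext i; fin_cases i <;> simp [e1', e2']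
  · have hct : Tendsto sig (𝓝 l0) (𝓝 l0) := by
      have := sig.continuous.continuousAt (x := l0)
      have h := this.tendsto
      rwa [hsig0] at h
    filter_upwards [hct (Metric.ball_mem_nhds l0 hρ0)] with x hx hxS
    exact hreg _ hx (sig_conj hxS.1)
  · have h6 : ∀ᶠ τ : ℝ in 𝓝[≠] 0, |τ| < ε := by
      have := continuous_abs.continuousAt (x := (0:ℝ))
      exact (this.eventually_lt_const (by simpa using hε)).filter_mono nhdsWithin_le_nhds
    have h7 : ∀ᶠ τ : ℝ in 𝓝[≠] 0, τ ≠ 0 := eventually_mem_nhdsWithin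
    filter_upwards [h6, h7] with τ h8 h9 hS
    have h10 := ((conj_iff _).1 hS.1).2
    have h11 : D (1 + τ, l0) = 0 := by rw [D_scale, h10, mul_zero]
    have h12 := unique_zero hN (l := l0) (by simpa using hε) (a := 1 + τ) (b := 1)
      (by simpa using h8) (by simpa using hε) h11 D_0
    exact h9 (by linarith)
  · rw [tendsto_pi_nhds]
    intro i
    fin_cases i
    · simpa using hc
    · simpa using hc.mul hα
    · simp
  · rw [tendsto_pi_nhds]
    intro i
    fin_cases i
    · have : ∀ k, (c k - 1)⁻¹ * (c k - 1) = 1 := fun k => inv_mul_cancel₀ (hcne k)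
      simp [this]
    · simpa using hquot
    · simp

end Pool.Agent.H70.SR
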